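import Pool.Agent.H768.D2.Lit
import Pool.Graph.R_seed8.Y512.Lit

/-!
From convex bodies in `ℝ × ℝ × ℝ` to pairs of polar bodies in coordinates.
-/

set_option autoImplicit false

open Set Topology

namespace Pool.Agent.H768.D2

/-- the duality: a direction which is positive on all supporting functionals illuminates -/
theorem lit_of_dual {E : Type*} [NormedAddCommGroup E] [NormedSpace ℝ E] {K : Set E}
    (hK : Convex ℝ K) (h0 : (0 : E) ∈ interior K) {p D : E} (hp : p ∈ K)
    (h : ∀ f : E →L[ℝ] ℝ, (∀ x ∈ K, f x ≤ 1) → f p = 1 → 0 < f D) :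
    Pool.Agent.Y512.Lit K (-D) p := by
  by_contra hcon
  have hdisj : Disjoint (interior K) ((fun τ : ℝ => p - τ • D) '' Ioi 0) := by
    rw [Set.disjoint_left]
    rintro x hx ⟨τ, hτ, rfl⟩
    apply hcon
    refine ⟨τ, hτ, ?_⟩
    rwa [smul_neg, ← sub_eq_add_neg]
  have hconv : Convex ℝ ((fun τ : ℝ => p - τ • D) '' Ioi 0) := by
    rintro _ ⟨τ, hτ, rfl⟩ _ ⟨σ, hσ, rfl⟩ a b ha hb hab
    refine ⟨a * τ + b * σ, ?_, ?_⟩
    · have h1 : 0 < τ := hτ
      have h2 : 0 < σ := hσ
      rcases ha.eq_or_lt with ha | ha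
      · subst ha
        rw [zero_add] at hab
        subst hab
        simpa using h2
      · exact add_pos_of_pos_of_nonneg (mul_pos ha h1) (mul_nonneg hb h2.le)
    · simp only
      rw [smul_sub, smul_sub, smul_smul, smul_smul, add_smul]
      have : p = a • p + b • p := by rw [← add_smul, hab, one_smul]
      conv_lhs => rw [this]
      abel
  obtain ⟨f, u, h1, h2⟩ := geometric_hahn_banach_open hK.interior isOpen_interior hconv hdisj
  have hu : 0 < u := by
    have := h1 0 h0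
    rwa [map_zero] at this
  have hfK : ∀ x ∈ K, f x ≤ u := by
    intro x hx
    have hcl : x ∈ closure (interior K) := by
      rw [hK.closure_interior_eq_closure_of_nonempty_interior ⟨0, h0⟩]
      exact subset_closure hx
    have hsub : interior K ⊆ {y | f y ≤ u} := fun y hy => (h1 y hy).le
    exact closure_minimal hsub (isClosed_le f.continuous continuous_const) hcl
  have h3 : ∀ τ : ℝ, 0 < τ → u ≤ f p - τ * f D := by
    intro τ hτ
    have := h2 _ ⟨τ, hτ, rfl⟩
    simpa using this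
  have h4 : f D ≤ 0 := by
    by_contra h5
    push Not at h5
    have h6 := h3 1 one_pos
    have h7 := hfK p hp
    linarith
  have h5 : u ≤ f p := by
    by_contra h6
    push Not at h6
    have hfD : 0 ≤ -f D := by linarith
    have h8 := h3 ((u - f p) / (2 * (-f D + 1))) (by
      apply div_pos <;> linarith)
    have h9 : (u - f p) / (2 * (-f D + 1)) * (-f D) ≤ (u - f p) / 2 := by
      rw [div_mul_eq_mul_div, div_le_div_iff₀ (by linarith) (by norm_num)]
      nlinarith
    linarith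
  have h6 : f p = u := le_antisymm (hfK p hp) h5
  have h7 := h (u⁻¹ • f) (fun x hx => by
    simp only [ContinuousLinearMap.smul_apply, smul_eq_mul]
    rw [inv_mul_le_iff₀ hu, mul_one]
    exact hfK x hx) (by
    simp only [ContinuousLinearMap.smul_apply, smul_eq_mul]
    rw [h6, inv_mul_cancel₀ hu.ne'])
  simp only [ContinuousLinearMap.smul_apply, smul_eq_mul] at h7
  have h8 : u⁻¹ * f D ≤ 0 := mul_nonpos_of_nonneg_of_nonpos (inv_nonneg.2 hu.le) h4
  linarith

/-- a convex body in `ℝ × ℝ × ℝ` invariant under the half-turns about the axes -/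
structure HT (K : Set (ℝ × ℝ × ℝ)) : Prop where
  conv : Convex ℝ K
  comp : IsCompact K
  int : (interior K).Nonempty
  R1 : ∀ x y z, (x, y, z) ∈ K → (x, -y, -z) ∈ K
  R2 : ∀ x y z, (x, y, z) ∈ K → (-x, y, -z) ∈ K

variable {K : Set (ℝ × ℝ × ℝ)}

theorem HT.R3 (h : HT K) (x y z : ℝ) (hx : (x, y, z) ∈ K) : (-x, -y, z) ∈ K := by
  have := h.R1 _ _ _ (h.R2 _ _ _ hx)
  rwa [neg_neg] at this

theorem HT.ax1 (h : HT K) {x y z : ℝ} (hx : (x, y, z) ∈ K) : (x, 0, 0) ∈ K := by
  have := h.conv hx (h.R1 _ _ _ hx) (a := 1 / 2) (b := 1 / 2) (by norm_num) (by norm_num)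
    (by norm_num)
  convert this using 1
  ext <;> simp <;> ring

theorem HT.ax2 (h : HT K) {x y z : ℝ} (hx : (x, y, z) ∈ K) : (0, y, 0) ∈ K := by
  have := h.conv hx (h.R2 _ _ _ hx) (a := 1 / 2) (b := 1 / 2) (by norm_num) (by norm_num)
    (by norm_num)
  convert this using 1
  ext <;> simp <;> ring

theorem HT.ax3 (h : HT K) {x y z : ℝ} (hx : (x, y, z) ∈ K) : (0, 0, z) ∈ K := by
  have := h.conv hx (h.R3 _ _ _ hx) (a := 1 / 2) (b := 1 / 2) (by norm_num) (by norm_num)
    (by norm_num)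
  convert this using 1
  ext <;> simp <;> ring

theorem HT.zero (h : HT K) : (0 : ℝ × ℝ × ℝ) ∈ interior K := by
  obtain ⟨⟨x, y, z⟩, hp⟩ := h.int
  have hq : (-x, -y, -z) ∈ K → True := fun _ => trivial
  have h1 := interior_subset hp
  have h2 := h.R1 _ _ _ h1
  have h3 := h.R2 _ _ _ h1
  have h4 := h.R3 _ _ _ h1
  have h5 := h.conv h2 h3 (a := 1 / 2) (b := 1 / 2) (by norm_num) (by norm_num) (by norm_num)
  have h6 := h.conv h5 h4 (a := 2 / 3) (b := 1 / 3) (by norm_num) (by norm_num) (by norm_num)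
  have h7 := h.conv.combo_interior_self_mem_interior hp h6 (a := 1 / 4) (b := 3 / 4)
    (by norm_num) (by norm_num) (by norm_num)
  convert h7 using 1
  ext <;> simp <;> ring

theorem HT.lit (h : HT K) : ∃ D : Finset (ℝ × ℝ × ℝ), D.card ≤ 8 ∧
    ∀ p ∈ K, ∃ d ∈ D, Pool.Agent.Y512.Lit K d p := by
  have h0 := h.zero
  have hne : K.Nonempty := h.int.mono interior_subset
  obtain ⟨r, hr, hball⟩ := Metric.mem_nhds_iff.1 (mem_interior_iff_mem_nhds.1 h0)
  obtain ⟨p1, hp1, hm1⟩ := h.comp.exists_isMaxOn hne (f := fun p : ℝ × ℝ × ℝ => p.1)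
    (by fun_prop)
  obtain ⟨p2, hp2, hm2⟩ := h.comp.exists_isMaxOn hne (f := fun p : ℝ × ℝ × ℝ => p.2.1)
    (by fun_prop)
  obtain ⟨p3, hp3, hm3⟩ := h.comp.exists_isMaxOn hne (f := fun p : ℝ × ℝ × ℝ => p.2.2)
    (by fun_prop)
  obtain ⟨a1, ha1⟩ : ∃ a1, a1 = p1.1 := ⟨_, rfl⟩
  obtain ⟨a2, ha2⟩ : ∃ a2, a2 = p2.2.1 := ⟨_, rfl⟩
  obtain ⟨a3, ha3⟩ : ∃ a3, a3 = p3.2.2 := ⟨_, rfl⟩
  have m1 : ∀ x y z, (x, y, z) ∈ K → x ≤ a1 := fun x y z hx => by
    rw [ha1]
    exact hm1 hx
  have m2 : ∀ x y z, (x, y, z) ∈ K → y ≤ a2 := fun x y z hx => by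
    rw [ha2]
    exact hm2 hx
  have m3 : ∀ x y z, (x, y, z) ∈ K → z ≤ a3 := fun x y z hx => by
    rw [ha3]
    exact hm3 hx
  have hb1 : ((r / 2, 0, 0) : ℝ × ℝ × ℝ) ∈ K := hball (by
    rw [mem_ball_zero_iff, Prod.norm_def, Prod.norm_def]
    simp only [norm_zero, Real.norm_eq_abs]
    rw [abs_of_pos (by linarith)]
    simp [hr])
  have hb2 : ((0, r / 2, 0) : ℝ × ℝ × ℝ) ∈ K := hball (by
    rw [mem_ball_zero_iff, Prod.norm_def, Prod.norm_def]
    simp only [norm_zero, Real.norm_eq_abs]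
    rw [abs_of_pos (by linarith)]
    simp [hr])
  have hb3 : ((0, 0, r / 2) : ℝ × ℝ × ℝ) ∈ K := hball (by
    rw [mem_ball_zero_iff, Prod.norm_def, Prod.norm_def]
    simp only [norm_zero, Real.norm_eq_abs]
    rw [abs_of_pos (by linarith)]
    simp [hr])
  have q1 : 0 < a1 := lt_of_lt_of_le (by linarith) (m1 _ _ _ hb1)
  have q2 : 0 < a2 := lt_of_lt_of_le (by linarith) (m2 _ _ _ hb2)
  have q3 : 0 < a3 := lt_of_lt_of_le (by linarith) (m3 _ _ _ hb3)
  let P : ℝ → ℝ → ℝ → Prop := fun x y z => (a1 * x, a2 * y, a3 * z) ∈ K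
  let N : ℝ → ℝ → ℝ → Prop := fun a b c => ∀ x y z, P x y z → a * x + b * y + c * z ≤ 1
  have hbod : Bod P N :=
    { pol := fun x y z a b c hP hN => hN x y z hP
      P1 := fun x y z hP => by
        have := h.R1 _ _ _ hP
        simpa only [P, mul_neg] using this
      P2 := fun x y z hP => by
        have := h.R2 _ _ _ hP
        simpa only [P, mul_neg] using this
      N1 := fun a b c hN x y z hP => by
        have h1 := h.R1 _ _ _ hP
        have := hN x (-y) (-z) (by simpa only [P, mul_neg] using h1)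
        linarith
      N2 := fun a b c hN x y z hP => by
        have h1 := h.R2 _ _ _ hP
        have := hN (-x) y (-z) (by simpa only [P, mul_neg] using h1)
        linarith
      e1 := by
        have : (p1.1, p1.2.1, p1.2.2) ∈ K := hp1
        have := h.ax1 this
        simpa only [P, mul_zero, mul_one, ha1] using this
      e2 := by
        have : (p2.1, p2.2.1, p2.2.2) ∈ K := hp2
        have := h.ax2 this
        simpa only [P, mul_zero, mul_one, ha2] using this
      e3 := by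
        have : (p3.1, p3.2.1, p3.2.2) ∈ K := hp3
        have := h.ax3 this
        simpa only [P, mul_zero, mul_one, ha3] using this
      f1 := fun x y z hP => by
        have := m1 _ _ _ hP
        have : a1 * x ≤ a1 * 1 := by linarith
        have := le_of_mul_le_mul_left this q1
        linarith
      f2 := fun x y z hP => by
        have := m2 _ _ _ hP
        have : a2 * y ≤ a2 * 1 := by linarith
        have := le_of_mul_le_mul_left this q2
        linarith
      f3 := fun x y z hP => by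
        have := m3 _ _ _ hP
        have : a3 * z ≤ a3 * 1 := by linarith
        have := le_of_mul_le_mul_left this q3
        linarith
      Nconv := fun a b c a' b' c' s t h1 h2 hs ht hst x y z hP => by
        have e1 := mul_le_mul_of_nonneg_left (h1 x y z hP) hs
        have e2 := mul_le_mul_of_nonneg_left (h2 x y z hP) ht
        linarith
      Pcl := h.comp.isClosed.preimage
        (by fun_prop : Continuous fun p : ℝ × ℝ × ℝ => (a1 * p.1, a2 * p.2.1, a3 * p.2.2))
      Ncl := by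
        have : {p : ℝ × ℝ × ℝ | N p.1 p.2.1 p.2.2} =
            ⋂ q ∈ {q : ℝ × ℝ × ℝ | P q.1 q.2.1 q.2.2},
              {p : ℝ × ℝ × ℝ | p.1 * q.1 + p.2.1 * q.2.1 + p.2.2 * q.2.2 ≤ 1} := by
          ext p
          simp only [N, mem_ofPred_eq, mem_iInter, Prod.forall]
        rw [this]
        exact isClosed_biInter fun q _ => isClosed_le (by fun_prop) (by fun_prop) }
  obtain ⟨D, hD, hl⟩ := hbod.lit8
  refine ⟨D.image fun d => -(a1 * d.1, a2 * d.2.1, a3 * d.2.2),
    Finset.card_image_le.trans hD, ?_⟩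
  rintro ⟨x, y, z⟩ hp
  have hP : P (x / a1) (y / a2) (z / a3) := by
    change (_, _, _) ∈ K
    rw [mul_div_cancel₀ _ q1.ne', mul_div_cancel₀ _ q2.ne', mul_div_cancel₀ _ q3.ne']
    exact hp
  obtain ⟨d, hd, hL⟩ := hl _ _ _ hP
  refine ⟨_, Finset.mem_image_of_mem _ hd, ?_⟩
  refine lit_of_dual h.conv h0 hp fun f hf hfp => ?_
  have hdec : ∀ u v w : ℝ, f (u, v, w) = u * f (1, 0, 0) + v * f (0, 1, 0) + w * f (0, 0, 1) := by
    intro u v w
    have : ((u, v, w) : ℝ × ℝ × ℝ) = u • ((1, 0, 0) : ℝ × ℝ × ℝ) + v • ((0, 1, 0) : ℝ × ℝ × ℝ) +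
        w • ((0, 0, 1) : ℝ × ℝ × ℝ) := by
      ext <;> simp
    rw [this, map_add, map_add, map_smul, map_smul, map_smul]
    simp only [smul_eq_mul]
  have h1 := hL (a1 * f (1, 0, 0)) (a2 * f (0, 1, 0)) (a3 * f (0, 0, 1)) (by
    intro x y z hP
    have := hf _ hP
    rw [hdec] at this
    linarith) (by
    rw [hdec] at hfp
    field_simp
    linarith)
  rw [hdec]
  linarith

end Pool.Agent.H768.D2
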