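import Pool.Agent.H768.D2.Core

/-!
Pairs of polar bodies in `ℝ³` which are invariant under the half-turns about the coordinate axes.
-/

set_option autoImplicit false

namespace Pool.Agent.H768.D2

/-- a body `P` and its polar body `N`, both invariant under the three half-turns about the
coordinate axes; the unit vectors are in `P` and in `N` -/
structure Bod (P N : ℝ → ℝ → ℝ → Prop) : Prop where
  pol : ∀ x y z a b c, P x y z → N a b c → a * x + b * y + c * z ≤ 1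
  P1 : ∀ x y z, P x y z → P x (-y) (-z)
  P2 : ∀ x y z, P x y z → P (-x) y (-z)
  N1 : ∀ x y z, N x y z → N x (-y) (-z)
  N2 : ∀ x y z, N x y z → N (-x) y (-z)
  e1 : P 1 0 0
  e2 : P 0 1 0
  e3 : P 0 0 1
  f1 : N 1 0 0
  f2 : N 0 1 0
  f3 : N 0 0 1
  Nconv : ∀ a b c a' b' c' s t : ℝ, N a b c → N a' b' c' → 0 ≤ s → 0 ≤ t → s + t = 1 →
    N (s * a + t * a') (s * b + t * b') (s * c + t * c')
  Pcl : IsClosed {p : ℝ × ℝ × ℝ | P p.1 p.2.1 p.2.2}
  Ncl : IsClosed {p : ℝ × ℝ × ℝ | N p.1 p.2.1 p.2.2}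

variable {P N : ℝ → ℝ → ℝ → Prop}

theorem Bod.P3 (h : Bod P N) (x y z : ℝ) (hP : P x y z) : P (-x) (-y) z := by
  have := h.P1 _ _ _ (h.P2 _ _ _ hP)
  rwa [neg_neg] at this

theorem Bod.N3 (h : Bod P N) (x y z : ℝ) (hP : N x y z) : N (-x) (-y) z := by
  have := h.N1 _ _ _ (h.N2 _ _ _ hP)
  rwa [neg_neg] at this

/-- the mirror image -/
theorem Bod.mirror (h : Bod P N) : Bod (fun x y z => P (-x) y z) (fun a b c => N (-a) b c) :=
  { pol := fun x y z a b c hP hN => by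
      have := h.pol _ _ _ _ _ _ hP hN
      linarith
    P1 := fun x y z hP => h.P1 _ _ _ hP
    P2 := fun x y z hP => h.P2 _ _ _ hP
    N1 := fun x y z hP => h.N1 _ _ _ hP
    N2 := fun x y z hP => h.N2 _ _ _ hP
    e1 := by
      have := h.P2 _ _ _ h.e1
      simpa using this
    e2 := by simpa using h.e2
    e3 := by simpa using h.e3
    f1 := by
      have := h.N2 _ _ _ h.f1
      simpa using this
    f2 := by simpa using h.f2
    f3 := by simpa using h.f3
    Nconv := fun a b c a' b' c' s t h1 h2 hs ht hst => by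
      have := h.Nconv _ _ _ _ _ _ s t h1 h2 hs ht hst
      have e : s * -a + t * -a' = -(s * a + t * a') := by ring
      rwa [e] at this
    Pcl := h.Pcl.preimage (by fun_prop : Continuous fun p : ℝ × ℝ × ℝ => (-p.1, p.2.1, p.2.2))
    Ncl := h.Ncl.preimage (by fun_prop : Continuous fun p : ℝ × ℝ × ℝ => (-p.1, p.2.1, p.2.2)) }

theorem Bod.swap23 (h : Bod P N) : Bod (fun x y z => P x z y) (fun a b c => N a c b) :=
  { pol := fun x y z a b c hP hN => by
      have := h.pol _ _ _ _ _ _ hP hN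
      linarith
    P1 := fun x y z hP => h.P1 _ _ _ hP
    P2 := fun x y z hP => h.P3 _ _ _ hP
    N1 := fun x y z hP => h.N1 _ _ _ hP
    N2 := fun x y z hP => h.N3 _ _ _ hP
    e1 := h.e1
    e2 := h.e3
    e3 := h.e2
    f1 := h.f1
    f2 := h.f3
    f3 := h.f2
    Nconv := fun a b c a' b' c' s t h1 h2 hs ht hst => h.Nconv _ _ _ _ _ _ s t h1 h2 hs ht hst
    Pcl := h.Pcl.preimage (by fun_prop : Continuous fun p : ℝ × ℝ × ℝ => (p.1, p.2.2, p.2.1))
    Ncl := h.Ncl.preimage (by fun_prop : Continuous fun p : ℝ × ℝ × ℝ => (p.1, p.2.2, p.2.1)) }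

theorem Bod.swap12 (h : Bod P N) : Bod (fun x y z => P y x z) (fun a b c => N b a c) :=
  { pol := fun x y z a b c hP hN => by
      have := h.pol _ _ _ _ _ _ hP hN
      linarith
    P1 := fun x y z hP => h.P2 _ _ _ hP
    P2 := fun x y z hP => h.P1 _ _ _ hP
    N1 := fun x y z hP => h.N2 _ _ _ hP
    N2 := fun x y z hP => h.N1 _ _ _ hP
    e1 := h.e2
    e2 := h.e1
    e3 := h.e3
    f1 := h.f2
    f2 := h.f1
    f3 := h.f3
    Nconv := fun a b c a' b' c' s t h1 h2 hs ht hst => h.Nconv _ _ _ _ _ _ s t h1 h2 hs ht hst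
    Pcl := h.Pcl.preimage (by fun_prop : Continuous fun p : ℝ × ℝ × ℝ => (p.2.1, p.1, p.2.2))
    Ncl := h.Ncl.preimage (by fun_prop : Continuous fun p : ℝ × ℝ × ℝ => (p.2.1, p.1, p.2.2)) }

/-- the direction `-d` illuminates the point `(x, y, z)` -/
def L (N : ℝ → ℝ → ℝ → Prop) (x y z : ℝ) (d : ℝ × ℝ × ℝ) : Prop :=
  ∀ a b c, N a b c → a * x + b * y + c * z = 1 → 0 < a * d.1 + b * d.2.1 + c * d.2.2

/-- eight directions suffice -/
def Lit8 (P N : ℝ → ℝ → ℝ → Prop) : Prop :=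
  ∃ D : Finset (ℝ × ℝ × ℝ), D.card ≤ 8 ∧ ∀ x y z, P x y z → ∃ d ∈ D, L N x y z d

theorem Lit8.of_mirror (h : Lit8 (fun x y z => P (-x) y z) (fun a b c => N (-a) b c)) :
    Lit8 P N := by
  obtain ⟨D, hD, hl⟩ := h
  refine ⟨D.image fun d => (-d.1, d.2.1, d.2.2), Finset.card_image_le.trans hD, ?_⟩
  intro x y z hP
  obtain ⟨d, hd, hL⟩ := hl (-x) y z (by simpa using hP)
  refine ⟨_, Finset.mem_image_of_mem _ hd, fun a b c hN he => ?_⟩
  have := hL (-a) b c (by simpa using hN) (by linarith)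
  simp only
  linarith

theorem Lit8.of_swap23 (h : Lit8 (fun x y z => P x z y) (fun a b c => N a c b)) :
    Lit8 P N := by
  obtain ⟨D, hD, hl⟩ := h
  refine ⟨D.image fun d => (d.1, d.2.2, d.2.1), Finset.card_image_le.trans hD, ?_⟩
  intro x y z hP
  obtain ⟨d, hd, hL⟩ := hl x z y hP
  refine ⟨_, Finset.mem_image_of_mem _ hd, fun a b c hN he => ?_⟩
  have := hL a c b hN (by linarith)
  simp only
  linarith

theorem Lit8.of_swap12 (h : Lit8 (fun x y z => P y x z) (fun a b c => N b a c)) :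
    Lit8 P N := by
  obtain ⟨D, hD, hl⟩ := h
  refine ⟨D.image fun d => (d.2.1, d.1, d.2.2), Finset.card_image_le.trans hD, ?_⟩
  intro x y z hP
  obtain ⟨d, hd, hL⟩ := hl y x z hP
  refine ⟨_, Finset.mem_image_of_mem _ hd, fun a b c hN he => ?_⟩
  have := hL b a c hN (by linarith)
  simp only
  linarith

theorem Bod.nor (h : Bod P N) {x y z a b c : ℝ} (hP : P x y z) (hN : N a b c)
    (he : a * x + b * y + c * z = 1) : Nor x y z a b c :=
  { eq := he
    a1 := by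
      have := h.pol _ _ _ _ _ _ h.e1 hN
      linarith
    a2 := by
      have := h.pol _ _ _ _ _ _ (h.P2 _ _ _ h.e1) hN
      linarith
    b1 := by
      have := h.pol _ _ _ _ _ _ h.e2 hN
      linarith
    b2 := by
      have := h.pol _ _ _ _ _ _ (h.P1 _ _ _ h.e2) hN
      linarith
    c1 := by
      have := h.pol _ _ _ _ _ _ h.e3 hN
      linarith
    c2 := by
      have := h.pol _ _ _ _ _ _ (h.P1 _ _ _ h.e3) hN
      linarith
    p12 := by
      have := h.pol _ _ _ _ _ _ (h.P3 _ _ _ hP) hN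
      linarith
    p13 := by
      have := h.pol _ _ _ _ _ _ (h.P2 _ _ _ hP) hN
      linarith
    p23 := by
      have := h.pol _ _ _ _ _ _ (h.P1 _ _ _ hP) hN
      linarith }

theorem Bod.x_le (h : Bod P N) {x y z : ℝ} (hP : P x y z) : x ≤ 1 := by
  have := h.pol _ _ _ _ _ _ hP h.f1
  linarith

theorem Bod.y_le (h : Bod P N) {x y z : ℝ} (hP : P x y z) : y ≤ 1 := by
  have := h.pol _ _ _ _ _ _ hP h.f2
  linarith

theorem Bod.z_le (h : Bod P N) {x y z : ℝ} (hP : P x y z) : z ≤ 1 := by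
  have := h.pol _ _ _ _ _ _ hP h.f3
  linarith

theorem Bod.a_le (h : Bod P N) {a b c : ℝ} (hN : N a b c) : a ≤ 1 := by
  have := h.pol _ _ _ _ _ _ h.e1 hN
  linarith

theorem Bod.b_le (h : Bod P N) {a b c : ℝ} (hN : N a b c) : b ≤ 1 := by
  have := h.pol _ _ _ _ _ _ h.e2 hN
  linarith

theorem Bod.c_le (h : Bod P N) {a b c : ℝ} (hN : N a b c) : c ≤ 1 := by
  have := h.pol _ _ _ _ _ _ h.e3 hN
  linarith

theorem Bod.L1 (h : Bod P N) {x y z u v w : ℝ} (hl : L N x y z (u, v, w)) :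
    L N x (-y) (-z) (u, -v, -w) := by
  intro a b c hN he
  have := hl a (-b) (-c) (h.N1 _ _ _ hN) (by linarith)
  simp only at this ⊢
  linarith

theorem Bod.L2 (h : Bod P N) {x y z u v w : ℝ} (hl : L N x y z (u, v, w)) :
    L N (-x) y (-z) (-u, v, -w) := by
  intro a b c hN he
  have := hl (-a) b (-c) (h.N2 _ _ _ hN) (by linarith)
  simp only at this ⊢
  linarith

/-- it suffices to consider the points with nonnegative coordinates and the points with only the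
first coordinate negative -/
theorem Bod.reduce (h : Bod P N) (D : Finset (ℝ × ℝ × ℝ))
    (hD1 : ∀ u v w : ℝ, (u, v, w) ∈ D → (u, -v, -w) ∈ D)
    (hD2 : ∀ u v w : ℝ, (u, v, w) ∈ D → (-u, v, -w) ∈ D)
    (he : ∀ x y z, 0 ≤ x → 0 ≤ y → 0 ≤ z → P x y z → ∃ d ∈ D, L N x y z d)
    (ho : ∀ x y z, 0 < x → 0 < y → 0 < z → P (-x) y z → ∃ d ∈ D, L N (-x) y z d) :
    ∀ x y z, P x y z → ∃ d ∈ D, L N x y z d := by
  have Q1 : ∀ x y z, (∃ d ∈ D, L N x y z d) → ∃ d ∈ D, L N x (-y) (-z) d := by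
    rintro x y z ⟨⟨u, v, w⟩, hd, hl⟩
    exact ⟨_, hD1 _ _ _ hd, h.L1 hl⟩
  have Q2 : ∀ x y z, (∃ d ∈ D, L N x y z d) → ∃ d ∈ D, L N (-x) y (-z) d := by
    rintro x y z ⟨⟨u, v, w⟩, hd, hl⟩
    exact ⟨_, hD2 _ _ _ hd, h.L2 hl⟩
  have Q3 : ∀ x y z, (∃ d ∈ D, L N x y z d) → ∃ d ∈ D, L N (-x) (-y) z d := by
    intro x y z hq
    have := Q1 _ _ _ (Q2 _ _ _ hq)
    rwa [neg_neg] at this
  have ho' : ∀ x y z, 0 ≤ x → 0 ≤ y → 0 ≤ z → P (-x) y z → ∃ d ∈ D, L N (-x) y z d := by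
    intro x y z hx hy hz hP
    rcases hx.eq_or_lt with hx | hx
    · subst hx
      rw [neg_zero] at hP ⊢
      exact he _ _ _ le_rfl hy hz hP
    rcases hy.eq_or_lt with hy | hy
    · subst hy
      have h1 := h.P3 _ _ _ hP
      rw [neg_neg, neg_zero] at h1
      have h2 := Q3 _ _ _ (he _ _ _ hx.le le_rfl hz h1)
      rwa [neg_zero] at h2
    rcases hz.eq_or_lt with hz | hz
    · subst hz
      have h1 := h.P2 _ _ _ hP
      rw [neg_neg, neg_zero] at h1
      have h2 := Q2 _ _ _ (he _ _ _ hx.le hy.le le_rfl h1)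
      rwa [neg_zero] at h2
    exact ho _ _ _ hx hy hz hP
  intro x y z hP
  rcases le_total 0 x with hx | hx <;> rcases le_total 0 y with hy | hy <;>
    rcases le_total 0 z with hz | hz
  · exact he _ _ _ hx hy hz hP
  · -- + + - : apply R2 to get (-x, y, -z)
    have h1 := ho' x y (-z) hx hy (by linarith) (by simpa using h.P2 _ _ _ hP)
    have h2 := Q2 _ _ _ h1
    simpa using h2
  · have h1 := ho' x (-y) z hx (by linarith) hz (by simpa using h.P3 _ _ _ hP)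
    have h2 := Q3 _ _ _ h1
    simpa using h2
  · have h1 := he x (-y) (-z) hx (by linarith) (by linarith) (h.P1 _ _ _ hP)
    have h2 := Q1 _ _ _ h1
    simpa using h2
  · have h1 := ho' (-x) y z (by linarith) hy hz (by simpa using hP)
    simpa using h1
  · have h1 := he (-x) y (-z) (by linarith) hy (by linarith) (h.P2 _ _ _ hP)
    have h2 := Q2 _ _ _ h1
    simpa using h2
  · have h1 := he (-x) (-y) z (by linarith) (by linarith) hz (h.P3 _ _ _ hP)
    have h2 := Q3 _ _ _ h1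
    simpa using h2
  · have h1 := ho' (-x) (-y) (-z) (by linarith) (by linarith) (by linarith)
      (by simpa using h.P1 _ _ _ hP)
    have h2 := Q1 _ _ _ h1
    simpa using h2

/-- the orbit of a direction -/
noncomputable def orb (u v w : ℝ) : Finset (ℝ × ℝ × ℝ) := {(u, v, w), (u, -v, -w), (-u, v, -w), (-u, -v, w)}

theorem orb_card (u v w : ℝ) : (orb u v w).card ≤ 4 := Finset.card_le_four

theorem orb_union_card (u v w u' v' w' : ℝ) : (orb u v w ∪ orb u' v' w').card ≤ 8 :=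
  (Finset.card_union_le _ _).trans (by linarith [orb_card u v w, orb_card u' v' w'])

theorem mem_orb {u v w a b c : ℝ} : (a, b, c) ∈ orb u v w ↔
    (a = u ∧ b = v ∧ c = w) ∨ (a = u ∧ b = -v ∧ c = -w) ∨ (a = -u ∧ b = v ∧ c = -w) ∨
      (a = -u ∧ b = -v ∧ c = w) := by
  simp [orb, Prod.ext_iff]

theorem orb1 {u v w a b c : ℝ} (h : (a, b, c) ∈ orb u v w) : (a, -b, -c) ∈ orb u v w := by
  rw [mem_orb] at h ⊢
  rcases h with ⟨rfl, rfl, rfl⟩ | ⟨rfl, rfl, rfl⟩ | ⟨rfl, rfl, rfl⟩ | ⟨rfl, rfl, rfl⟩ <;> simp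

theorem orb2 {u v w a b c : ℝ} (h : (a, b, c) ∈ orb u v w) : (-a, b, -c) ∈ orb u v w := by
  rw [mem_orb] at h ⊢
  rcases h with ⟨rfl, rfl, rfl⟩ | ⟨rfl, rfl, rfl⟩ | ⟨rfl, rfl, rfl⟩ | ⟨rfl, rfl, rfl⟩ <;> simp

theorem Bod.reduce' (h : Bod P N) (u v w u' v' w' : ℝ)
    (he : ∀ x y z, 0 ≤ x → 0 ≤ y → 0 ≤ z → P x y z →
      ∃ d ∈ orb u v w ∪ orb u' v' w', L N x y z d)
    (ho : ∀ x y z, 0 < x → 0 < y → 0 < z → P (-x) y z →
      ∃ d ∈ orb u v w ∪ orb u' v' w', L N (-x) y z d) :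
    ∀ x y z, P x y z → ∃ d ∈ orb u v w ∪ orb u' v' w', L N x y z d := by
  refine h.reduce _ ?_ ?_ he ho
  · intro a b c hd
    rw [Finset.mem_union] at hd ⊢
    exact hd.imp orb1 orb1
  · intro a b c hd
    rw [Finset.mem_union] at hd ⊢
    exact hd.imp orb2 orb2

end Pool.Agent.H768.D2
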