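import Pool.Agent.H768.D2.Main

/-!
The case of a contact which is neither even-good nor odd-good.
-/

set_option autoImplicit false

open Set

namespace Pool.Agent.H768.D2

variable {P N : ℝ → ℝ → ℝ → Prop}

/-- the points of `N` form a bounded set -/
theorem Bod.N_compact (h : Bod P N) : IsCompact {p : ℝ × ℝ × ℝ | N p.1 p.2.1 p.2.2} := by
  refine Metric.isCompact_of_isClosed_isBounded h.Ncl ?_
  refine (Metric.isBounded_closedBall (x := (0 : ℝ × ℝ × ℝ)) (r := 1)).subset ?_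
  rintro ⟨a, b, c⟩ hN
  have h1 : N a b c := hN
  have h2 := h.a_le h1
  have h3 := h.b_le h1
  have h4 := h.c_le h1
  have h5 := h.a_le (h.N2 _ _ _ h1)
  have h6 := h.b_le (h.N1 _ _ _ h1)
  have h7 := h.c_le (h.N1 _ _ _ h1)
  rw [mem_closedBall_zero_iff, Prod.norm_def, Prod.norm_def]
  simp only [Real.norm_eq_abs]
  refine max_le (abs_le.2 ⟨by linarith, h2⟩) (max_le (abs_le.2 ⟨by linarith, h3⟩)
    (abs_le.2 ⟨by linarith, h4⟩))

theorem Bod.exists_s (h : Bod P N) : ∃ s : ℝ, 0 < s ∧ s < 1 ∧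
    (∀ b c, N 1 b c → 0 < 1 + s * (b + c)) ∧ (1 / 2 < s ∨ N 1 1 1) := by
  by_cases h1 : N 1 1 1
  · refine ⟨1 / 4, by norm_num, by norm_num, ?_, Or.inr h1⟩
    intro b c hN
    have h6 := h.b_le (h.N1 _ _ _ hN)
    have h7 := h.c_le (h.N1 _ _ _ hN)
    linarith
  · have hK : IsCompact ({p : ℝ × ℝ × ℝ | N p.1 p.2.1 p.2.2} ∩ {p | p.1 = 1}) :=
      h.N_compact.inter_right (isClosed_eq (by fun_prop) (by fun_prop))
    obtain ⟨⟨a, b, c⟩, ⟨hN, ha⟩, hmin⟩ := hK.exists_isMinOn ⟨(1, 0, 0), h.f1, rfl⟩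
      (f := fun p : ℝ × ℝ × ℝ => p.2.1 + p.2.2) (by fun_prop)
    have ha' : a = 1 := ha
    subst ha'
    have hN' : N 1 b c := hN
    have hm : ∀ b' c', N 1 b' c' → b + c ≤ b' + c' := fun b' c' h' =>
      hmin (show ((1 : ℝ), b', c') ∈ _ from ⟨h', rfl⟩)
    have h0 : b + c ≤ 0 := by
      have := hm _ _ h.f1
      linarith
    have h6 := h.b_le (h.N1 _ _ _ hN')
    have h7 := h.c_le (h.N1 _ _ _ hN')
    have h8 : -2 < b + c := by
      by_contra h8
      push Not at h8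
      have e1 : -b = 1 := by linarith
      have e2 : -c = 1 := by linarith
      apply h1
      have := h.N1 _ _ _ hN'
      rwa [e1, e2] at this
    refine ⟨1 / 2 + (2 + (b + c)) / 8, by linarith, by linarith, ?_, Or.inl (by linarith)⟩
    intro b' c' hN''
    have h9 := hm _ _ hN''
    have h10 : (1 / 2 + (2 + (b + c)) / 8) * (b + c) ≤ (1 / 2 + (2 + (b + c)) / 8) * (b' + c') :=
      mul_le_mul_of_nonneg_left h9 (by linarith)
    nlinarith

/-- a small positive weight of the first coordinate -/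
theorem Bod.exists_e (h : Bod P N) {t : ℝ} (ht : 0 < t) (hN : N (-t) 1 1) (hX : ¬ N 0 1 1) :
    ∃ e : ℝ, 0 ≤ e ∧ e < 1 ∧ (∀ a c, N a 1 c → 0 < e * a + 1 + c) := by
  have key : ∀ a, N a 1 (-1) → 0 < a := by
    intro a ha
    by_contra h0
    push Not at h0
    have h1 := h.N2 _ _ _ ha
    rw [neg_neg] at h1
    -- `(-a, 1, 1)` and `(-t, 1, 1)`
    apply hX
    have h2 := h.Nconv _ _ _ _ _ _ (t / (t - a)) (-a / (t - a)) h1 hN
      (div_nonneg ht.le (by linarith)) (div_nonneg (by linarith) (by linarith))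
      (by rw [← add_div]; exact div_self (by linarith))
    have e1 : t / (t - a) * -a + -a / (t - a) * -t = 0 := by
      field_simp
      ring
    have e2 : t / (t - a) * 1 + -a / (t - a) * 1 = 1 := by
      rw [mul_one, mul_one, ← add_div]
      exact div_self (by linarith)
    rwa [e1, e2] at h2
  have hcl : IsClosed {p : ℝ × ℝ × ℝ | p.2.1 = 1 ∧ p.1 ≤ 0} :=
    (isClosed_eq (f := fun p : ℝ × ℝ × ℝ => p.2.1) (g := fun _ => 1) (by fun_prop)
      (by fun_prop)).inter (isClosed_le (f := fun p : ℝ × ℝ × ℝ => p.1) (g := fun _ => 0)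
      (by fun_prop) (by fun_prop))
  have hK : IsCompact ({p : ℝ × ℝ × ℝ | N p.1 p.2.1 p.2.2} ∩ {p | p.2.1 = 1 ∧ p.1 ≤ 0}) :=
    h.N_compact.inter_right hcl
  obtain ⟨⟨a, b, c⟩, ⟨hN1, hb, ha⟩, hmin⟩ := hK.exists_isMinOn ⟨(0, 1, 0), h.f2, rfl, le_rfl⟩
    (f := fun p : ℝ × ℝ × ℝ => p.2.2) (by fun_prop)
  have hb' : b = 1 := hb
  subst hb'
  have ha' : a ≤ 0 := ha
  have hN' : N a 1 c := hN1
  have hm : ∀ a' c', N a' 1 c' → a' ≤ 0 → c ≤ c' := fun a' c' h' h'' =>
    hmin (show (a', (1 : ℝ), c') ∈ _ from ⟨h', rfl, h''⟩)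
  have h7 := h.c_le (h.N1 _ _ _ hN')
  have h8 : -1 < c := by
    by_contra h8
    push Not at h8
    have e2 : c = -1 := by linarith
    rw [e2] at hN'
    have := key _ hN'
    linarith
  have h9 := hm _ _ h.f2 le_rfl
  refine ⟨(1 + c) / 2, by linarith, by linarith, ?_⟩
  intro a' c' h'
  have h10 := h.c_le (h.N1 _ _ _ h')
  have h11 := h.a_le (h.N2 _ _ _ h')
  rcases lt_or_ge 0 a' with h12 | h12
  · have := mul_pos (by linarith : 0 < (1 + c) / 2) h12
    linarith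
  · have h13 := hm _ _ h' h12
    have h14 : (1 + c) / 2 * (-1) ≤ (1 + c) / 2 * a' :=
      mul_le_mul_of_nonneg_left (by linarith) (by linarith)
    linarith

theorem Bod.exists_e' (h : Bod P N) {t : ℝ} (ht : 0 < t) (hN : N (-t) 1 1) (hX : ¬ N 0 1 1) :
    ∃ e : ℝ, 0 ≤ e ∧ e < 1 ∧ (∀ a c, N a 1 c → 0 < e * a + 1 + c) ∧
      (∀ a b, N a b 1 → 0 < e * a + b + 1) := by
  obtain ⟨e, he, he1, h1⟩ := h.exists_e ht hN hX
  obtain ⟨e', he', he1', h1'⟩ := h.swap23.exists_e ht hN hX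
  -- use positivity of both
  by_cases hpos : 0 < min e e'
  · refine ⟨min e e', hpos.le, (min_le_left _ _).trans_lt he1, ?_, ?_⟩
    · intro a c hN'
      have h2 := h1 a c hN'
      have h7 := h.c_le (h.N1 _ _ _ hN')
      rcases lt_or_ge 0 a with h3 | h3
      · have := mul_pos hpos h3
        linarith
      · have := mul_le_mul_of_nonpos_right (min_le_left e e') h3
        linarith
    · intro a b hN'
      have h2 := h1' a b hN'
      have h7 := h.b_le (h.N1 _ _ _ hN')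
      rcases lt_or_ge 0 a with h3 | h3
      · have := mul_pos hpos h3
        linarith
      · have := mul_le_mul_of_nonpos_right (min_le_right e e') h3
        linarith
  · -- one of the two vanishes
    exfalso
    have h2 : N t 1 (-1) := by
      have := h.N2 _ _ _ hN
      rwa [neg_neg] at this
    have h3 := h1 _ _ h2
    have h4 : N t (-1) 1 := by
      have := h.N3 _ _ _ hN
      rwa [neg_neg] at this
    have h5 := h1' _ _ h4
    apply hpos
    refine lt_min ?_ ?_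
    · by_contra h0
      push Not at h0
      have : e = 0 := le_antisymm h0 he
      rw [this] at h3
      norm_num at h3
    · by_contra h0
      push Not at h0
      have : e' = 0 := le_antisymm h0 he'
      rw [this] at h5
      norm_num at h5

/-- a point with only the first coordinate negative which is not illuminated -/
theorem Bod.odd_data (h : Bod P N) {s : ℝ} (hs : 0 < s) (hs1 : s < 1)
    {p q : ℝ} (hμ : N (-1) p q) (hpq : 1 ≤ p + q) {x y z : ℝ} (hx : 0 < x) (hy : 0 < y)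
    (hz : 0 < z) (hP : P (-x) y z) (hn : ∀ d ∈ orb 1 s s ∪ orb 0 1 1, ¬ L N (-x) y z d) :
    1 ≤ y + z ∧ ∃ A B C k d : ℝ, N A B C ∧ 0 < A ∧ 0 < k ∧ k ≤ B ∧ k ≤ C ∧ 0 ≤ d ∧ d < 1 ∧
      1 - k * d ≤ A * x := by
  -- it suffices to treat `y ≤ z`
  have key : ∀ (P N : ℝ → ℝ → ℝ → Prop) (p q y z : ℝ), Bod P N → N (-1) p q → 1 ≤ p + q → 0 < y →
      0 < z → P (-x) y z → y ≤ z → ¬ L N (-x) y z (0, 1, 1) → ¬ L N (-x) y z (-1, -s, s) →
      1 ≤ y + z ∧ ∃ A B C k d : ℝ, N A B C ∧ 0 < A ∧ 0 < k ∧ k ≤ B ∧ k ≤ C ∧ 0 ≤ d ∧ d < 1 ∧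
      1 - k * d ≤ A * x := by
    intro P N p q y z h hμ hpq hy hz hP hyz n1 n2
    simp only [L, not_forall, not_lt] at n1 n2
    obtain ⟨a, b, c, hN, hE, hn⟩ := n1
    obtain ⟨a', b', c', hN', hE', hn'⟩ := n2
    have hx1 : x ≤ 1 - y := h.mirror.x_le' (x := x) hμ hpq hy hyz hP
    have hz1 := h.z_le hP
    have nor := h.mirror.nor (x := x) (y := y) (z := z) (a := -a) (b := b) (c := c) hP
      (by simpa using hN) (by linarith)
    have nor' := h.mirror.nor (x := x) (y := y) (z := z) (a := -a') (b := b') (c := c') hP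
      (by simpa using hN') (by linarith)
    refine ⟨opp1 nor' hx hy hz hx1 hs hs1 (by linarith), ?_⟩
    obtain ⟨h1, h2, h3, h4, h5⟩ := opp2 nor hx hy hz hx1 (by linarith)
    refine ⟨-a, -b, c, c, z - y, ?_, h1, h3, h4, le_rfl, by linarith, by linarith, by linarith⟩
    exact h.N3 _ _ _ hN
  have m1 : ((0 : ℝ), (1 : ℝ), (1 : ℝ)) ∈ orb 1 s s ∪ orb 0 1 1 := by simp [orb]
  have m2 : (-(1 : ℝ), -s, s) ∈ orb 1 s s ∪ orb 0 1 1 := by simp [orb]
  have m3 : (-(1 : ℝ), s, -s) ∈ orb 1 s s ∪ orb 0 1 1 := by simp [orb]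
  rcases le_total y z with hyz | hyz
  · exact key P N p q y z h hμ hpq hy hz hP hyz (hn _ m1) (hn _ m2)
  · obtain ⟨h1, A, B, C, k, d, h2, h3, h4, h5, h6, h7, h8, h9⟩ :=
      key _ _ q p z y h.swap23 hμ (by linarith) hz hy hP hyz
        (by
          intro hl
          refine hn _ m1 fun a b c hN hE => ?_
          have := hl a c b hN (by linarith)
          simp only at this ⊢
          linarith)
        (by
          intro hl
          refine hn _ m3 fun a b c hN hE => ?_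
          have := hl a c b hN (by linarith)
          simp only at this ⊢
          linarith)
    exact ⟨by linarith, A, C, B, k, d, h2, h3, h4, h6, h5, h7, h8, h9⟩

/-- in the presence of a functional `(-t, 1, 1)` all points with only the first coordinate
negative are illuminated -/
theorem Bod.odd_ok (h : Bod P N) {s e : ℝ} (hs : 0 < s) (hs1 : s < 1)
    {p q : ℝ} (hμ : N (-1) p q) (hpq : 1 ≤ p + q) {t : ℝ} (ht : 0 < t) (hN : N (-t) 1 1)
    {x y z : ℝ} (hx : 0 < x) (hy : 0 < y)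
    (hz : 0 < z) (hP : P (-x) y z) : ∃ d ∈ orb 1 s s ∪ orb e 1 1, L N (-x) y z d := by
  have hlt : y + z < 1 := by
    have h1 := h.pol _ _ _ _ _ _ hP hN
    have h2 := mul_pos ht hx
    linarith
  have m2 : (-(1 : ℝ), -s, s) ∈ orb 1 s s ∪ orb e 1 1 := by simp [orb]
  have m3 : (-(1 : ℝ), s, -s) ∈ orb 1 s s ∪ orb e 1 1 := by simp [orb]
  have key : ∀ (P N : ℝ → ℝ → ℝ → Prop) (p q y z : ℝ), Bod P N → N (-1) p q → 1 ≤ p + q → 0 < y →
      0 < z → P (-x) y z → y ≤ z → y + z < 1 → L N (-x) y z (-1, -s, s) := by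
    intro P N p q y z h hμ hpq hy hz hP hyz hlt a' b' c' hN' hE'
    have hx1 : x ≤ 1 - y := h.mirror.x_le' (x := x) hμ hpq hy hyz hP
    have nor' := h.mirror.nor (x := x) (y := y) (z := z) (a := -a') (b := b') (c := c') hP
      (by simpa using hN') (by linarith)
    by_contra hn'
    simp only [not_lt] at hn'
    have := opp1 nor' hx hy hz hx1 hs hs1 (by linarith)
    linarith
  rcases le_total y z with hyz | hyz
  · exact ⟨_, m2, key P N p q y z h hμ hpq hy hz hP hyz hlt⟩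
  · refine ⟨_, m3, fun a b c hN' hE => ?_⟩
    have := key _ _ q p z y h.swap23 hμ (by linarith) hz hy hP hyz (by linarith) a c b hN'
      (by linarith)
    simp only at this ⊢
    linarith

/-- case (II) -/
theorem Bod.case2 (h : Bod P N) {p q : ℝ} (hν : N 1 p q) (hpq : 1 ≤ p + q)
    {p' q' : ℝ} (hμ : N (-1) p' q') (hpq' : 1 ≤ p' + q') (hX : ¬ N 0 1 1)
    {t : ℝ} (ht : 0 < t) (hN : N (-t) 1 1) : Lit8 P N := by
  obtain ⟨s, hs, hs1, h1, h2⟩ := h.exists_s
  obtain ⟨e, he, he1, h3, h4⟩ := h.exists_e' ht hN hX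
  refine ⟨_, orb_union_card 1 s s e 1 1, ?_⟩
  exact h.even hs hs1 he he1 h1 h2 hν hpq hX h3 h4 fun x y z hx hy hz hP =>
    h.odd_ok hs hs1 hμ hpq' ht hN hx hy hz hP

/-- case (I) -/
theorem Bod.case1 (h : Bod P N) {p q : ℝ} (hν : N 1 p q) (hpq : 1 ≤ p + q)
    {p' q' : ℝ} (hμ : N (-1) p' q') (hpq' : 1 ≤ p' + q') (hno : ∀ t, ¬ N t 1 1) : Lit8 P N := by
  obtain ⟨s, hs, hs1, h1, h2⟩ := h.exists_s
  obtain ⟨s', hs', hs1', h1', h2'⟩ := h.mirror.exists_s
  have gen : ∀ (P N : ℝ → ℝ → ℝ → Prop) (p q p' q' s : ℝ), Bod P N → N 1 p q → 1 ≤ p + q →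
      N (-1) p' q' → 1 ≤ p' + q' → (∀ t, ¬ N t 1 1) → 0 < s → s < 1 →
      (∀ b c, N 1 b c → 0 < 1 + s * (b + c)) → (1 / 2 < s ∨ N 1 1 1) →
      Lit8 P N ∨ ∃ x y z A B C k d : ℝ, 0 < x ∧ x < 1 ∧ 0 < y ∧ 0 < z ∧ P (-x) y z ∧ 1 ≤ y + z ∧
        N A B C ∧ 0 < A ∧ 0 < k ∧ k ≤ B ∧ k ≤ C ∧ 0 ≤ d ∧ d < 1 ∧ 1 - k * d ≤ A * x := by
    intro P N p q p' q' s h hν hpq hμ hpq' hno hs hs1 h1 h2
    by_cases hall : ∀ x y z, 0 < x → 0 < y → 0 < z → P (-x) y z →
        ∃ d ∈ orb 1 s s ∪ orb 0 1 1, L N (-x) y z d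
    · left
      refine ⟨_, orb_union_card 1 s s 0 1 1, ?_⟩
      refine h.even hs hs1 le_rfl one_pos h1 h2 hν hpq (hno 0) ?_ ?_ hall
      · intro a c hN
        have h3 := h.c_le (h.N1 _ _ _ hN)
        by_contra h0
        have h4 : c = -1 := by linarith
        subst h4
        have h5 := h.N2 _ _ _ hN
        rw [neg_neg] at h5
        exact hno _ h5
      · intro a b hN
        have h3 := h.b_le (h.N1 _ _ _ hN)
        by_contra h0
        have h4 : b = -1 := by linarith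
        subst h4
        have h5 := h.N3 _ _ _ hN
        rw [neg_neg] at h5
        exact hno _ h5
    · right
      push Not at hall
      obtain ⟨x, y, z, hx, hy, hz, hP, hn⟩ := hall
      obtain ⟨h3, A, B, C, k, d, h4⟩ := h.odd_data hs hs1 hμ hpq' hx hy hz hP hn
      exact ⟨x, y, z, A, B, C, k, d, hx, h.mirror.x_lt hμ hpq' hy hz hP, hy, hz, hP, h3, h4⟩
  rcases gen P N p q p' q' s h hν hpq hμ hpq' hno hs hs1 h1 h2 with
    h3 | ⟨x, y, z, A, B, C, k, d, hx, hx1, hy, hz, hP, hyz, hN, hA, hk, hkB, hkC, hd0, hd1, hax⟩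
  · exact h3
  rcases gen _ _ p' q' p q s' h.mirror hμ hpq' (by simpa using hν) hpq
    (fun t ht => hno _ ht) hs' hs1' h1' h2' with
    h3 | ⟨x', y', z', A', B', C', k', d', hx', hx1', hy', hz', hP', hyz', hN', hA', hk', hkB', hkC',
      hd0', hd1', hax'⟩
  · exact h3.of_mirror
  exfalso
  have hP'' : P x' y' z' := by simpa using hP'
  refine fin_aux hx1 hy hz hyz hy' hz' hyz' hk hkB hkC hA (h.a_le hN) hk' hkB' hkC' hA'
    (by have := h.a_le (h.N2 _ _ _ hN'); linarith) hd0 hd1 hd0' hd1' hax ?_ hax' ?_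
  · exact h.pol _ _ _ _ _ _ hP'' hN
  · have := h.pol _ _ _ _ _ _ hP hN'
    linarith

/-- the case of a contact `e₁` which is neither even-good nor odd-good -/
theorem Bod.case_neither (h : Bod P N) {p q : ℝ} (hν : N 1 p q) (hpq : 1 ≤ p + q)
    {p' q' : ℝ} (hμ : N (-1) p' q') (hpq' : 1 ≤ p' + q') (hX : ¬ N 0 1 1) : Lit8 P N := by
  by_cases hno : ∀ t, ¬ N t 1 1
  · exact h.case1 hν hpq hμ hpq' hno
  · push Not at hno
    obtain ⟨t, ht⟩ := hno
    rcases lt_trichotomy t 0 with h1 | h1 | h1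
    · exact h.case2 hν hpq hμ hpq' hX (t := -t) (by linarith) (by simpa using ht)
    · subst h1
      exact absurd ht hX
    · refine Lit8.of_mirror ?_
      refine h.mirror.case2 hμ hpq' (by simpa using hν) hpq (by simpa using hX) h1 ?_
      simpa using ht

end Pool.Agent.H768.D2
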