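import Mathlib

/-!
Convex bodies in `ℝ³` which are invariant under the three half-turns about the coordinate axes:
inequalities for the points and the supporting functionals.
-/

set_option autoImplicit false

namespace Pool.Agent.H768.D2

/-- a supporting functional `(a, b, c)` of value `1` at the point `(x, y, z)` -/
structure Nor (x y z a b c : ℝ) : Prop where
  eq : a * x + b * y + c * z = 1
  a1 : a ≤ 1
  a2 : -1 ≤ a
  b1 : b ≤ 1
  b2 : -1 ≤ b
  c1 : c ≤ 1
  c2 : -1 ≤ c
  p12 : 0 ≤ a * x + b * y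
  p13 : 0 ≤ a * x + c * z
  p23 : 0 ≤ b * y + c * z

theorem Nor.swap {x y z a b c : ℝ} (h : Nor x y z a b c) : Nor x z y a c b :=
  { eq := by linarith [h.eq]
    a1 := h.a1
    a2 := h.a2
    b1 := h.c1
    b2 := h.c2
    c1 := h.b1
    c2 := h.b2
    p12 := h.p13
    p13 := h.p12
    p23 := by linarith [h.p23] }

theorem Nor.swap12 {x y z a b c : ℝ} (h : Nor x y z a b c) : Nor y x z b a c :=
  { eq := by linarith [h.eq]
    a1 := h.b1
    a2 := h.b2
    b1 := h.a1
    b2 := h.a2
    c1 := h.c1
    c2 := h.c2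
    p12 := by linarith [h.p12]
    p13 := h.p23
    p23 := h.p13 }

/-- all equal weights -/
theorem Nor.balanced {x y z a b c : ℝ} (h : Nor x y z a b c) (hx : 0 < x) (hy : 0 < y)
    (hz : 0 < z) (hx1 : x ≤ 1) (hy1 : y ≤ 1) (hz1 : z ≤ 1) : 0 < a + b + c := by
  obtain ⟨h1, a1, a2, b1, b2, c1, c2, h12, h13, h23⟩ := h
  rcases lt_or_ge a 0 with ha | ha
  · have hb : 0 < b := by
      by_contra hb
      push Not at hb
      nlinarith
    have hc : 0 < c := by
      by_contra hc
      push Not at hc
      nlinarith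
    nlinarith
  rcases lt_or_ge b 0 with hb | hb
  · have hc : 0 < c := by
      by_contra hc
      push Not at hc
      nlinarith
    nlinarith
  rcases lt_or_ge c 0 with hc | hc
  · nlinarith
  by_contra h0
  push Not at h0
  have e1 : a = 0 := by linarith
  have e2 : b = 0 := by linarith
  have e3 : c = 0 := by linarith
  rw [e1, e2, e3] at h1
  norm_num at h1

/-- Step 1: a functional which is not positive on `(1, s, s)` has `a < 0` -/
theorem Nor.step1 {x y z a b c s : ℝ} (h : Nor x y z a b c) (hy : 0 < y)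
    (hz : 0 < z) (hx1 : x ≤ 1) (hy1 : y ≤ 1) (hz1 : z ≤ 1) (hs : 0 < s) (hs1 : s < 1)
    (hn : a + s * (b + c) ≤ 0) : a < 0 := by
  obtain ⟨h1, a1, a2, b1, b2, c1, c2, h12, h13, h23⟩ := h
  by_contra ha
  push Not at ha
  rcases lt_or_ge b 0 with hb | hb
  · have hc : 0 < c := by
      by_contra hc
      push Not at hc
      nlinarith
    have h2 : 1 - b * y ≤ a + c := by nlinarith
    have h3 : a * (1 - s) + s * (1 - b * y) ≤ s * (-b) := by nlinarith
    have h4 : 0 ≤ a * (1 - s) := mul_nonneg ha (by linarith)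
    have h5 : 0 < s * (-b * y) := by
      have : 0 < -b * y := mul_pos (by linarith) hy
      positivity
    nlinarith
  rcases lt_or_ge c 0 with hc | hc
  · have h2 : 1 - c * z ≤ a + b := by nlinarith
    have h3 : a * (1 - s) + s * (1 - c * z) ≤ s * (-c) := by nlinarith
    have h4 : 0 ≤ a * (1 - s) := mul_nonneg ha (by linarith)
    have h5 : 0 < s * (-c * z) := by
      have : 0 < -c * z := mul_pos (by linarith) hz
      positivity
    nlinarith
  have e1 : a = 0 := by nlinarith [mul_nonneg hs.le (add_nonneg hb hc)]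
  have e4 : b + c ≤ 0 := by
    by_contra h0
    push Not at h0
    nlinarith [mul_pos hs h0]
  have e2 : b = 0 := by linarith
  have e3 : c = 0 := by linarith
  rw [e1, e2, e3] at h1
  norm_num at h1

/-- two supporting functionals at a point of the own octant -/
theorem same {x y z a b c a' b' c' s e : ℝ} (hx : 0 < x) (hy : 0 < y)
    (hz : 0 < z) (hx1 : x < 1) (hy1 : y ≤ 1) (hz1 : z ≤ 1) (h : Nor x y z a b c)
    (h' : Nor x y z a' b' c') (hs : 0 < s) (hs1 : s < 1) (he : 0 ≤ e) (he1 : e ≤ 1)
    (hn : e * a + b + c ≤ 0) (hn' : a' + s * (b' + c') ≤ 0)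
    (hs2 : 1 / 2 < s ∨ x + y + z ≤ 1) : False := by
  have ha' : a' < 0 := h'.step1 hy hz hx1.le hy1 hz1 hs hs1 hn'
  obtain ⟨h1', a1', a2', b1', b2', c1', c2', h12', h13', h23'⟩ := h'
  obtain ⟨h1, a1, a2, b1, b2, c1, c2, h12, h13, h23⟩ := h
  have hxa : a' * x < 0 := mul_neg_of_neg_of_pos ha' hx
  have hyz : 1 < y + z := by nlinarith
  rcases hs2 with hs2 | hs2
  swap
  · linarith
  -- step 2
  have ha : 0 ≤ a := by
    by_contra ha
    push Not at ha
    have hax : a * x < 0 := mul_neg_of_neg_of_pos ha hx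
    have hb : 0 < b := by
      by_contra hb
      push Not at hb
      nlinarith
    have hc : 0 < c := by
      by_contra hc
      push Not at hc
      nlinarith
    have h2 : 1 < b + c := by nlinarith
    have h3 : -1 ≤ e * a := by nlinarith
    linarith
  have hbc : b + c ≤ 0 := by
    have := mul_nonneg he ha
    linarith
  -- the common end
  have key : ∀ Y Z B' C' C : ℝ, 0 < Y → 0 < Z → Y ≤ 1 → Z ≤ 1 → B' * Y + C' * Z = 1 - a' * x →
      B' ≤ 1 → C' ≤ 1 → B' + C' = b' + c' → 0 < C → C ≤ 1 → Y ≤ Z →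
      1 - C * (Z - Y) ≤ a * x → False := by
    intro Y Z B' C' C hY hZ hY1 hZ1 hE hB hC hBC hC0 hC1 hYZ hax
    have h1a : C * (Z - Y) ≤ 1 * (Z - Y) := mul_le_mul_of_nonneg_right hC1 (by linarith)
    have h1b : a * x ≤ 1 * x := mul_le_mul_of_nonneg_right a1 hx.le
    have h1c : C' * (Z - Y) ≤ 1 * (Z - Y) := mul_le_mul_of_nonneg_right hC (by linarith)
    have h2 : 1 - (Z - Y) ≤ x := by linarith
    have h3 : 1 - (Z - Y) - a' * x ≤ Y * (B' + C') := by linarith
    have h4 : s * (Y * (B' + C')) ≤ Y * (-a') := by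
      rw [hBC]
      have := mul_nonpos_of_nonneg_of_nonpos hY.le hn'
      linarith
    have h5 : s * (1 - (Z - Y) - a' * x) ≤ Y * (-a') :=
      (mul_le_mul_of_nonneg_left h3 hs.le).trans h4
    -- s h ≤ (-a') (Y - s x)
    have h6 : s * (1 - (Z - Y)) ≤ (-a') * (Y - s * x) := by linarith
    have h7 : 0 < 1 - (Z - Y) := by linarith
    have h8 : 0 < Y - s * x := by
      by_contra h0
      push Not at h0
      have : (-a') * (Y - s * x) ≤ 0 := mul_nonpos_of_nonneg_of_nonpos (by linarith) h0
      have : 0 < s * (1 - (Z - Y)) := mul_pos hs h7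
      linarith
    have h8' : (-a') * (Y - s * x) ≤ 1 * (Y - s * x) :=
      mul_le_mul_of_nonneg_right (by linarith) h8.le
    have h9 : s * (1 - (Z - Y)) ≤ Y - s * x := by linarith
    have h10 : s * (1 - (Z - Y)) ≤ s * x := mul_le_mul_of_nonneg_left h2 hs.le
    have h11 : 0 < (2 * s - 1) * (1 - (Z - Y)) := mul_pos (by linarith) h7
    linarith
  rcases lt_or_ge b 0 with hb | hb
  · have hby : b * y < 0 := mul_neg_of_neg_of_pos hb hy
    have hc : 0 < c := by
      by_contra hc
      push Not at hc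
      have := mul_nonpos_of_nonpos_of_nonneg hc hz.le
      linarith
    have hcb : c * z ≤ (-b) * z := mul_le_mul_of_nonneg_right (by linarith) hz.le
    have hcb' : c * y ≤ (-b) * y := mul_le_mul_of_nonneg_right (by linarith) hy.le
    have hyz' : y ≤ z := by
      by_contra h0
      push Not at h0
      have : (-b) * z < (-b) * y := mul_lt_mul_of_pos_left h0 (by linarith)
      linarith
    exact key y z b' c' c hy hz hy1 hz1 (by linarith) b1' c1' rfl hc c1 hyz' (by linarith)
  rcases lt_or_ge c 0 with hc | hc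
  · have hcz : c * z < 0 := mul_neg_of_neg_of_pos hc hz
    have hb : 0 < b := by
      by_contra hb
      push Not at hb
      have := mul_nonpos_of_nonpos_of_nonneg hb hy.le
      linarith
    have hcb : b * y ≤ (-c) * y := mul_le_mul_of_nonneg_right (by linarith) hy.le
    have hcb' : b * z ≤ (-c) * z := mul_le_mul_of_nonneg_right (by linarith) hz.le
    have hyz' : z ≤ y := by
      by_contra h0
      push Not at h0
      have : (-c) * y < (-c) * z := mul_lt_mul_of_pos_left h0 (by linarith)
      linarith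
    exact key z y c' b' b hz hy hz1 hy1 (by linarith) c1' b1' (by ring) hb b1 hyz' (by linarith)
  have e2 : b = 0 := by linarith
  have e3 : c = 0 := by linarith
  rw [e2, e3] at h1
  have : a * x ≤ 1 * x := mul_le_mul_of_nonneg_right a1 hx.le
  linarith

/-- a functional which is not positive on `(1, -s, s)` -/
theorem opp1 {x y z a b c s : ℝ} (h : Nor x y z a b c) (hx : 0 < x) (hy : 0 < y)
    (hz : 0 < z) (hxy : x ≤ 1 - y) (hs : 0 < s) (hs1 : s < 1)
    (hn : a - s * b + s * c ≤ 0) : 1 ≤ y + z := by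
  obtain ⟨h1, a1, a2, b1, b2, c1, c2, h12, h13, h23⟩ := h
  rcases lt_or_ge a 0 with ha | ha
  · have hax : a * x < 0 := mul_neg_of_neg_of_pos ha hx
    nlinarith
  have hcb : c ≤ b := by
    by_contra h0
    push Not at h0
    nlinarith
  rcases le_or_gt c 0 with hc | hc
  · exfalso
    have h2 : (1 - a) * (1 - y) + (1 - b) * y ≤ c * z := by nlinarith
    have h3 : 0 ≤ (1 - a) * (1 - y) := mul_nonneg (by linarith) (by linarith)
    have h4 : 0 ≤ (1 - b) * y := mul_nonneg (by linarith) hy.le
    have h5 : c * z ≤ 0 := mul_nonpos_of_nonpos_of_nonneg hc hz.le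
    have h6 : c * z = 0 := by linarith
    have e3 : c = 0 := by
      rcases mul_eq_zero.1 h6 with h | h
      · exact h
      · linarith
    have h7 : (1 - a) * (1 - y) = 0 := by linarith
    have h8 : (1 - b) * y = 0 := by linarith
    have e1 : a = 1 := by
      rcases mul_eq_zero.1 h7 with h | h
      · linarith
      · linarith
    have e2 : b = 1 := by
      rcases mul_eq_zero.1 h8 with h | h
      · linarith
      · linarith
    rw [e1, e2, e3] at hn
    linarith
  · by_contra h0
    push Not at h0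
    have hb : 0 < b := by linarith
    have h2 : a * x ≤ s * (b - c) * x := mul_le_mul_of_nonneg_right (by linarith) hx.le
    rcases le_or_gt (s * x) z with h3 | h3
    · have h4 : c * (z - s * x) ≤ b * (z - s * x) := mul_le_mul_of_nonneg_right hcb (by linarith)
      have h5 : b * (y + z) ≤ 1 * (y + z) := mul_le_mul_of_nonneg_right b1 (by linarith)
      linarith
    · have h4 : c * (z - s * x) ≤ 0 := mul_nonpos_of_nonneg_of_nonpos hc.le (by linarith)
      have h5 : 1 ≤ b * (s * x + y) := by linarith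
      have h5' : b * (s * x + y) ≤ 1 * (s * x + y) :=
        mul_le_mul_of_nonneg_right b1 (by positivity)
      have h6 : s * x ≤ s * (1 - y) := mul_le_mul_of_nonneg_left hxy hs.le
      have h7 : 0 < (1 - s) * (1 - y) := mul_pos (by linarith) (by linarith)
      linarith

/-- the data of a functional which is not positive on `(0, 1, 1)` -/
theorem opp2 {x y z a b c : ℝ} (h : Nor x y z a b c) (hx : 0 < x) (hy : 0 < y)
    (hz : 0 < z) (hxy : x ≤ 1 - y) (hn : b + c ≤ 0) :
    0 < a ∧ b < 0 ∧ 0 < c ∧ c ≤ -b ∧ 1 - c * (z - y) ≤ a * x := by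
  obtain ⟨h1, a1, a2, b1, b2, c1, c2, h12, h13, h23⟩ := h
  have ha : 0 ≤ a := by
    by_contra ha
    push Not at ha
    have hax : a * x < 0 := mul_neg_of_neg_of_pos ha hx
    have hb : 0 < b := by
      by_contra hb
      push Not at hb
      nlinarith
    nlinarith
  have hc : 0 < c := by
    by_contra hc
    push Not at hc
    have h2 : 1 ≤ a * x := by
      by_cases hb : b ≤ 0
      · nlinarith
      · push Not at hb
        nlinarith
    nlinarith
  have hb : b < 0 := by
    by_contra hb
    push Not at hb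
    linarith
  refine ⟨?_, hb, hc, by linarith, by nlinarith⟩
  rcases ha.lt_or_eq with h2 | h2
  · exact h2
  · exfalso
    rw [← h2] at h1 h12
    nlinarith

/-- the final contradiction -/
theorem fin_aux {x y z x' y' z' A B C A' B' C' : ℝ} (hx1 : x < 1) (hy : 0 < y)
    (hz : 0 < z) (hyz : 1 ≤ y + z) (hy' : 0 < y') (hz' : 0 < z') (hyz' : 1 ≤ y' + z')
    {k k' d d' : ℝ} (hk : 0 < k) (hkB : k ≤ B) (hkC : k ≤ C) (hA : 0 < A) (hA1 : A ≤ 1)
    (hk' : 0 < k') (hkB' : k' ≤ B') (hkC' : k' ≤ C') (hA' : 0 < A') (hA1' : A' ≤ 1)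
    (hd0 : 0 ≤ d) (hd1 : d < 1) (hd0' : 0 ≤ d') (hd1' : d' < 1)
    (h1 : 1 - k * d ≤ A * x) (h2 : A * x' + B * y' + C * z' ≤ 1)
    (h1' : 1 - k' * d' ≤ A' * x') (h2' : A' * x + B' * y + C' * z ≤ 1) : False := by
  have h3 : A * x' + k ≤ 1 := by
    have e1 : k * y' ≤ B * y' := mul_le_mul_of_nonneg_right hkB hy'.le
    have e2 : k * z' ≤ C * z' := mul_le_mul_of_nonneg_right hkC hz'.le
    have e3 : k * 1 ≤ k * (y' + z') := mul_le_mul_of_nonneg_left hyz' hk.le
    linarith
  have h3' : A' * x + k' ≤ 1 := by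
    have e1 : k' * y ≤ B' * y := mul_le_mul_of_nonneg_right hkB' hy.le
    have e2 : k' * z ≤ C' * z := mul_le_mul_of_nonneg_right hkC' hz.le
    have e3 : k' * 1 ≤ k' * (y + z) := mul_le_mul_of_nonneg_left hyz hk'.le
    linarith
  have h4 : 1 - (1 - A * x') * d ≤ A * x := by
    have e1 : k * d ≤ (1 - A * x') * d := mul_le_mul_of_nonneg_right (by linarith) hd0
    linarith
  have h4' : 1 - (1 - A' * x) * d' ≤ A' * x' := by
    have e1 : k' * d' ≤ (1 - A' * x) * d' := mul_le_mul_of_nonneg_right (by linarith) hd0'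
    linarith
  have h5 : 1 - d ≤ A * (x - x' * d) := by linarith
  have h5' : 1 - d' ≤ A' * (x' - x * d') := by linarith
  have h6 : 0 < x - x' * d := by
    by_contra h0
    push Not at h0
    have := mul_nonpos_of_nonneg_of_nonpos hA.le h0
    linarith
  have h6' : 0 < x' - x * d' := by
    by_contra h0
    push Not at h0
    have := mul_nonpos_of_nonneg_of_nonpos hA'.le h0
    linarith
  have h7 : A * (x - x' * d) ≤ 1 * (x - x' * d) := mul_le_mul_of_nonneg_right hA1 h6.le
  have h7' : A' * (x' - x * d') ≤ 1 * (x' - x * d') := mul_le_mul_of_nonneg_right hA1' h6'.le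
  have h8 : 1 - x ≤ d * (1 - x') := by linarith
  have h8' : 1 - x' ≤ d' * (1 - x) := by linarith
  have h9 : 1 - x ≤ d * (d' * (1 - x)) := h8.trans (mul_le_mul_of_nonneg_left h8' hd0)
  have h10 : d * d' < 1 := by
    have : d * d' ≤ d * 1 := mul_le_mul_of_nonneg_left hd1'.le hd0
    linarith
  have h11 : 0 < (1 - d * d') * (1 - x) := mul_pos (by linarith) (by linarith)
  linarith

end Pool.Agent.H768.D2
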