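import Pool.Agent.H768.D2.Cases

/-!
The remaining cases and the theorem: eight directions suffice.
-/

set_option autoImplicit false

open Set

namespace Pool.Agent.H768.D2

variable {P N : ℝ → ℝ → ℝ → Prop}

theorem Bod.P_compact (h : Bod P N) : IsCompact {p : ℝ × ℝ × ℝ | P p.1 p.2.1 p.2.2} := by
  refine Metric.isCompact_of_isClosed_isBounded h.Pcl ?_
  refine (Metric.isBounded_closedBall (x := (0 : ℝ × ℝ × ℝ)) (r := 1)).subset ?_
  rintro ⟨a, b, c⟩ hN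
  have h1 : P a b c := hN
  have h2 := h.x_le h1
  have h3 := h.y_le h1
  have h4 := h.z_le h1
  have h5 := h.x_le (h.P2 _ _ _ h1)
  have h6 := h.y_le (h.P1 _ _ _ h1)
  have h7 := h.z_le (h.P1 _ _ _ h1)
  rw [mem_closedBall_zero_iff, Prod.norm_def, Prod.norm_def]
  simp only [Real.norm_eq_abs]
  refine max_le (abs_le.2 ⟨by linarith, h2⟩) (max_le (abs_le.2 ⟨by linarith, h3⟩)
    (abs_le.2 ⟨by linarith, h4⟩))

theorem L_of_mirror {x y z u v w : ℝ} (hl : L (fun a b c => N (-a) b c) x y z (u, v, w)) :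
    L N (-x) y z (-u, v, w) := by
  intro a b c hN he
  have := hl (-a) b c (by simpa using hN) (by linarith)
  simp only at this ⊢
  linarith

/-- the directions of the prism -/
theorem crossA (h : Bod P N) (hX : N 0 1 1) (hP1 : P 1 1 0) (hP2 : P 1 0 1) {x y z : ℝ}
    (hx : 0 ≤ x) (hy : 0 ≤ y) (hz : 0 ≤ z) (hP : P x y z) :
    ∃ d ∈ orb 1 1 0 ∪ orb 1 0 1, L N x y z d := by
  have m1 : ((1 : ℝ), (1 : ℝ), (0 : ℝ)) ∈ orb 1 1 0 ∪ orb 1 0 1 := by simp [orb]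
  have m2 : ((1 : ℝ), (0 : ℝ), (1 : ℝ)) ∈ orb 1 1 0 ∪ orb 1 0 1 := by simp [orb]
  have key : ∀ (P N : ℝ → ℝ → ℝ → Prop) (x y z : ℝ), Bod P N → N 0 1 1 → P 1 1 0 → P 1 0 1 →
      0 ≤ x → 0 ≤ y → 0 ≤ z → P x y z → z ≤ y → L N x y z (1, 1, 0) := by
    intro P N x y z h hX hP1 hP2 hx hy hz hP hyz a b c hN hE
    simp only
    have hyz1 := h.pol _ _ _ _ _ _ hP hX
    have hx1 := h.x_le hP
    have q1 := h.pol _ _ _ _ _ _ hP1 hN
    have q2 := h.pol _ _ _ _ _ _ hP2 hN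
    have q3 := h.pol _ _ _ _ _ _ (h.P2 _ _ _ hP1) hN
    have q4 := h.pol _ _ _ _ _ _ (h.P2 _ _ _ (h.P1 _ _ _ hP2)) hN
    have q5 := h.pol _ _ _ _ _ _ (h.P1 _ _ _ hP1) hN
    have hn := h.nor hP hN hE
    rcases lt_or_ge a 0 with ha | ha
    · exfalso
      have h1 : a * x ≤ 0 := mul_nonpos_of_nonpos_of_nonneg ha.le hx
      have h2 : b * y ≤ (1 + a) * y := mul_le_mul_of_nonneg_right (by linarith) hy
      have h3 : c * z ≤ (1 + a) * z := mul_le_mul_of_nonneg_right (by linarith) hz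
      have h4 : (1 + a) * (y + z) ≤ (1 + a) * 1 :=
        mul_le_mul_of_nonneg_left (by linarith) (by linarith [hn.a2])
      linarith
    · have h1 : a * x ≤ a * 1 := mul_le_mul_of_nonneg_left hx1 ha
      have h2 : b * y ≤ (1 - a) * y := mul_le_mul_of_nonneg_right (by linarith) hy
      have h3 : c * z ≤ (1 - a) * z := mul_le_mul_of_nonneg_right (by linarith) hz
      have h4 : (1 - a) * (y + z) ≤ (1 - a) * 1 :=
        mul_le_mul_of_nonneg_left (by linarith) (by linarith [hn.a1])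
      rcases hn.a1.eq_or_lt with h5 | h5
      · linarith
      · have h6 : (1 - a) * (1 - (y + z)) = 0 := by linarith
        have h7 : y + z = 1 := by
          rcases mul_eq_zero.1 h6 with h | h
          · linarith
          · linarith
        have h8 : (1 - a - b) * y = 0 := by linarith
        rcases mul_eq_zero.1 h8 with h | h
        · linarith
        · linarith
  rcases le_total z y with hyz | hyz
  · exact ⟨_, m1, key P N x y z h hX hP1 hP2 hx hy hz hP hyz⟩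
  · refine ⟨_, m2, fun a b c hN hE => ?_⟩
    have := key _ _ x z y h.swap23 hX hP2 hP1 hx hz hy hP hyz a c b hN (by linarith)
    simp only at this ⊢
    linarith

/-- the directions for a body which is not a prism -/
noncomputable def dirB (δ : ℝ) : Finset (ℝ × ℝ × ℝ) :=
  orb 1 δ 0 ∪ {(0, 1, 0), (0, -1, 0), (0, 0, 1), (0, 0, -1)}

theorem dirB_card (δ : ℝ) : (dirB δ).card ≤ 8 :=
  (Finset.card_union_le _ _).trans (by
    have h1 := orb_card 1 δ 0
    have h2 : ({(0, 1, 0), (0, -1, 0), (0, 0, 1), (0, 0, -1)} : Finset (ℝ × ℝ × ℝ)).card ≤ 4 :=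
      Finset.card_le_four
    linarith)

theorem crossB (h : Bod P N) (hX : N 0 1 1) {δ : ℝ} (hδ : 0 < δ)
    (hb : ∀ x y z, P x y z → 1 ≤ |x| + |y| → 1 ≤ |x| + |z| → |z| ≤ 1 - 2 * δ) {x y z : ℝ}
    (hx : 0 ≤ x) (hy : 0 ≤ y) (hz : 0 ≤ z) (hP : P x y z) :
    ∃ d ∈ dirB δ, L N x y z d := by
  have hyz1 := h.pol _ _ _ _ _ _ hP hX
  rcases lt_or_ge (x + y) 1 with h1 | h1
  · refine ⟨(0, 0, 1), by simp [dirB], fun a b c hN hE => ?_⟩
    have hn := h.nor hP hN hE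
    simp only
    by_contra h0
    have h2 : c * z ≤ 0 := mul_nonpos_of_nonpos_of_nonneg (by linarith) hz
    have h3 : a * x ≤ 1 * x := mul_le_mul_of_nonneg_right hn.a1 hx
    have h4 : b * y ≤ 1 * y := mul_le_mul_of_nonneg_right hn.b1 hy
    linarith
  rcases lt_or_ge (x + z) 1 with h2 | h2
  · refine ⟨(0, 1, 0), by simp [dirB], fun a b c hN hE => ?_⟩
    have hn := h.nor hP hN hE
    simp only
    by_contra h0
    have h2 : b * y ≤ 0 := mul_nonpos_of_nonpos_of_nonneg (by linarith) hy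
    have h3 : a * x ≤ 1 * x := mul_le_mul_of_nonneg_right hn.a1 hx
    have h4 : c * z ≤ 1 * z := mul_le_mul_of_nonneg_right hn.c1 hz
    linarith
  have hz1 : z ≤ 1 - 2 * δ := by
    have := hb x y z hP (by rwa [abs_of_nonneg hx, abs_of_nonneg hy])
      (by rwa [abs_of_nonneg hx, abs_of_nonneg hz])
    rwa [abs_of_nonneg hz] at this
  refine ⟨(1, δ, 0), by simp [dirB, orb], fun a b c hN hE => ?_⟩
  have hn := h.nor hP hN hE
  have hx1 := h.x_le hP
  simp only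
  by_contra h0
  push Not at h0
  rcases lt_or_ge b 0 with hb0 | hb0
  · have h3 : c * z ≤ 1 * z := mul_le_mul_of_nonneg_right hn.c1 hz
    have h4 : b * y ≤ 0 := mul_nonpos_of_nonpos_of_nonneg hb0.le hy
    have h5 : 2 * δ ≤ a * x := by linarith
    have ha : 0 ≤ a := by
      by_contra h6
      push Not at h6
      have := mul_nonpos_of_nonpos_of_nonneg h6.le hx
      linarith
    have h6 : a * x ≤ a * 1 := mul_le_mul_of_nonneg_left hx1 ha
    have h7 : δ * (-1) ≤ δ * b := mul_le_mul_of_nonneg_left hn.b2 hδ.le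
    linarith
  · have h3 : 0 ≤ δ * b := mul_nonneg hδ.le hb0
    have ha : a ≤ 0 := by linarith
    have h4 : a * x ≤ 0 := mul_nonpos_of_nonpos_of_nonneg ha hx
    have h5 : b * y ≤ 1 * y := mul_le_mul_of_nonneg_right hn.b1 hy
    have h6 : c * z ≤ 1 * z := mul_le_mul_of_nonneg_right hn.c1 hz
    have h7 : a * x = 0 := by linarith
    have h8 : 0 < x := by linarith
    have h9 : a = 0 := by
      rcases mul_eq_zero.1 h7 with h | h
      · exact h
      · linarith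
    subst h9
    have h10 : b = 0 := by
      have : δ * b = 0 := by linarith
      rcases mul_eq_zero.1 this with h | h
      · linarith
      · exact h
    subst h10
    linarith

theorem Bod.reduceM (h : Bod P N) (D : Finset (ℝ × ℝ × ℝ))
    (hD1 : ∀ u v w : ℝ, (u, v, w) ∈ D → (u, -v, -w) ∈ D)
    (hD2 : ∀ u v w : ℝ, (u, v, w) ∈ D → (-u, v, -w) ∈ D)
    (hD3 : ∀ u v w : ℝ, (u, v, w) ∈ D → (-u, v, w) ∈ D)
    (he : ∀ x y z, 0 ≤ x → 0 ≤ y → 0 ≤ z → P x y z → ∃ d ∈ D, L N x y z d)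
    (ho : ∀ x y z, 0 ≤ x → 0 ≤ y → 0 ≤ z → P (-x) y z →
      ∃ d ∈ D, L (fun a b c => N (-a) b c) x y z d) :
    ∀ x y z, P x y z → ∃ d ∈ D, L N x y z d := by
  refine h.reduce D hD1 hD2 he fun x y z hx hy hz hP => ?_
  obtain ⟨⟨u, v, w⟩, hd, hl⟩ := ho x y z hx.le hy.le hz.le hP
  exact ⟨_, hD3 _ _ _ hd, L_of_mirror hl⟩

theorem pm {u r : ℝ} (h : u = r ∨ u = -r) : -u = r ∨ -u = -r := by
  rcases h with rfl | rfl
  · exact Or.inr rfl
  · exact Or.inl (neg_neg r)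

theorem nz {u : ℝ} (h : u = 0) : -u = 0 := by rw [h, neg_zero]

/-- the shadow in the direction of the first axis is a parallelogram -/
theorem Bod.cross (h : Bod P N) (hX : N 0 1 1) : Lit8 P N := by
  have key : ∀ (P N : ℝ → ℝ → ℝ → Prop), Bod P N → N 0 1 1 → ¬ P 1 0 1 → Lit8 P N := by
    intro P N h hX hnot
    have hK : IsCompact ({p : ℝ × ℝ × ℝ | P p.1 p.2.1 p.2.2} ∩
        {p | 1 ≤ |p.1| + |p.2.1| ∧ 1 ≤ |p.1| + |p.2.2|}) := by
      refine h.P_compact.inter_right ?_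
      exact (isClosed_le (f := fun _ => (1 : ℝ)) (g := fun p : ℝ × ℝ × ℝ => |p.1| + |p.2.1|)
        (by fun_prop) (by fun_prop)).inter (isClosed_le (f := fun _ => (1 : ℝ))
        (g := fun p : ℝ × ℝ × ℝ => |p.1| + |p.2.2|) (by fun_prop) (by fun_prop))
    obtain ⟨δ, hδ, hb⟩ : ∃ δ : ℝ, 0 < δ ∧
        ∀ x y z, P x y z → 1 ≤ |x| + |y| → 1 ≤ |x| + |z| → |z| ≤ 1 - 2 * δ := by
      rcases Set.eq_empty_or_nonempty ({p : ℝ × ℝ × ℝ | P p.1 p.2.1 p.2.2} ∩
        {p | 1 ≤ |p.1| + |p.2.1| ∧ 1 ≤ |p.1| + |p.2.2|}) with hE | hne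
      · refine ⟨1, one_pos, fun x y z h1 h2 h3 => ?_⟩
        have : ((x, y, z) : ℝ × ℝ × ℝ) ∈ ({p : ℝ × ℝ × ℝ | P p.1 p.2.1 p.2.2} ∩
          {p | 1 ≤ |p.1| + |p.2.1| ∧ 1 ≤ |p.1| + |p.2.2|}) := ⟨h1, h2, h3⟩
        rw [hE] at this
        exact this.elim
      · obtain ⟨⟨x₀, y₀, z₀⟩, ⟨hP₀, h1, h2⟩, hmax⟩ := hK.exists_isMaxOn hne
          (f := fun p : ℝ × ℝ × ℝ => |p.2.2|) (by fun_prop)
        simp only [mem_ofPred_eq] at hP₀ h1 h2
        have hz0 : |z₀| < 1 := by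
          have hz1 : |z₀| ≤ 1 := abs_le.2 ⟨by
            have := h.z_le (h.P1 _ _ _ hP₀)
            linarith, h.z_le hP₀⟩
          have hx1 : |x₀| ≤ 1 := abs_le.2 ⟨by
            have := h.x_le (h.P2 _ _ _ hP₀)
            linarith, h.x_le hP₀⟩
          by_contra h0
          have h3 : |z₀| = 1 := by linarith
          have hs1 := h.pol _ _ _ _ _ _ hP₀ hX
          have hs2 := h.pol _ _ _ _ _ _ (h.P1 _ _ _ hP₀) hX
          have hs3 := h.pol _ _ _ _ _ _ (h.P2 _ _ _ hP₀) hX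
          have hs4 := h.pol _ _ _ _ _ _ (h.P3 _ _ _ hP₀) hX
          have hy0 : y₀ = 0 := by
            rcases abs_cases z₀ with ⟨e1, _⟩ | ⟨e1, _⟩ <;> linarith
          subst hy0
          rw [abs_zero, add_zero] at h1
          have hx0 : |x₀| = 1 := by linarith
          apply hnot
          rcases (abs_eq one_pos.le).1 hx0 with h4 | h4 <;>
            rcases (abs_eq one_pos.le).1 h3 with h5 | h5 <;> rw [h4, h5] at hP₀
          · exact hP₀
          · simpa using h.P1 _ _ _ hP₀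
          · simpa using h.P3 _ _ _ hP₀
          · simpa using h.P2 _ _ _ hP₀
        refine ⟨(1 - |z₀|) / 2, by linarith, fun x y z h3 h4 h5 => ?_⟩
        have : |z| ≤ |z₀| := hmax (show ((x, y, z) : ℝ × ℝ × ℝ) ∈ _ from ⟨h3, h4, h5⟩)
        linarith
    refine ⟨dirB δ, dirB_card δ, ?_⟩
    have hD : ∀ u v w : ℝ, (u, v, w) ∈ dirB δ ↔ (((u = 1 ∨ u = -1) ∧ (v = δ ∨ v = -δ) ∧ w = 0) ∨
        (u = 0 ∧ ((v = 1 ∨ v = -1) ∧ w = 0 ∨ v = 0 ∧ (w = 1 ∨ w = -1)))) := by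
      intro u v w
      simp only [dirB, Finset.mem_union, mem_orb, Finset.mem_insert, Finset.mem_singleton,
        Prod.ext_iff, neg_zero]
      constructor
      · rintro ((⟨rfl, rfl, rfl⟩ | ⟨rfl, rfl, rfl⟩ | ⟨rfl, rfl, rfl⟩ | ⟨rfl, rfl, rfl⟩) |
          (⟨h1, h2, h3⟩ | ⟨h1, h2, h3⟩ | ⟨h1, h2, h3⟩ | ⟨h1, h2, h3⟩))
        · exact Or.inl ⟨Or.inl rfl, Or.inl rfl, rfl⟩
        · exact Or.inl ⟨Or.inl rfl, Or.inr rfl, rfl⟩
        · exact Or.inl ⟨Or.inr rfl, Or.inl rfl, rfl⟩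
        · exact Or.inl ⟨Or.inr rfl, Or.inr rfl, rfl⟩
        · exact Or.inr ⟨h1, Or.inl ⟨Or.inl h2, h3⟩⟩
        · exact Or.inr ⟨h1, Or.inl ⟨Or.inr h2, h3⟩⟩
        · exact Or.inr ⟨h1, Or.inr ⟨h2, Or.inl h3⟩⟩
        · exact Or.inr ⟨h1, Or.inr ⟨h2, Or.inr h3⟩⟩
      · rintro (⟨rfl | rfl, rfl | rfl, rfl⟩ | ⟨h1, ⟨h2 | h2, h3⟩ | ⟨h2, h3 | h3⟩⟩)
        · exact Or.inl (Or.inl ⟨rfl, rfl, rfl⟩)
        · exact Or.inl (Or.inr (Or.inl ⟨rfl, rfl, rfl⟩))
        · exact Or.inl (Or.inr (Or.inr (Or.inl ⟨rfl, rfl, rfl⟩)))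
        · exact Or.inl (Or.inr (Or.inr (Or.inr ⟨rfl, rfl, rfl⟩)))
        · exact Or.inr (Or.inl ⟨h1, h2, h3⟩)
        · exact Or.inr (Or.inr (Or.inl ⟨h1, h2, h3⟩))
        · exact Or.inr (Or.inr (Or.inr (Or.inl ⟨h1, h2, h3⟩)))
        · exact Or.inr (Or.inr (Or.inr (Or.inr ⟨h1, h2, h3⟩)))
    refine h.reduceM _ ?_ ?_ ?_ (fun x y z hx hy hz hP => crossB h hX hδ hb hx hy hz hP)
      (fun x y z hx hy hz hP => crossB h.mirror (by simpa using hX) hδ
        (fun x y z hP h1 h2 => hb (-x) y z hP (by rwa [abs_neg]) (by rwa [abs_neg])) hx hy hz hP)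
    · intro u v w
      rw [hD, hD]
      rintro (⟨h1, h2, h3⟩ | ⟨h1, ⟨h2, h3⟩ | ⟨h2, h3⟩⟩)
      · exact Or.inl ⟨h1, pm h2, nz h3⟩
      · exact Or.inr ⟨h1, Or.inl ⟨pm h2, nz h3⟩⟩
      · exact Or.inr ⟨h1, Or.inr ⟨nz h2, pm h3⟩⟩
    · intro u v w
      rw [hD, hD]
      rintro (⟨h1, h2, h3⟩ | ⟨h1, ⟨h2, h3⟩ | ⟨h2, h3⟩⟩)
      · exact Or.inl ⟨pm h1, h2, nz h3⟩
      · exact Or.inr ⟨nz h1, Or.inl ⟨h2, nz h3⟩⟩
      · exact Or.inr ⟨nz h1, Or.inr ⟨h2, pm h3⟩⟩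
    · intro u v w
      rw [hD, hD]
      rintro (⟨h1, h2, h3⟩ | ⟨h1, ⟨h2, h3⟩ | ⟨h2, h3⟩⟩)
      · exact Or.inl ⟨pm h1, h2, h3⟩
      · exact Or.inr ⟨nz h1, Or.inl ⟨h2, h3⟩⟩
      · exact Or.inr ⟨nz h1, Or.inr ⟨h2, h3⟩⟩
  by_cases h1 : P 1 0 1
  swap
  · exact key P N h hX h1
  by_cases h2 : P 1 1 0
  swap
  · exact Lit8.of_swap23 (key _ _ h.swap23 hX h2)
  refine ⟨_, orb_union_card 1 1 0 1 0 1, ?_⟩
  have hD : ∀ u v w : ℝ, (u, v, w) ∈ orb 1 1 0 ∪ orb 1 0 1 ↔ ((u = 1 ∨ u = -1) ∧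
      ((v = 1 ∨ v = -1) ∧ w = 0 ∨ v = 0 ∧ (w = 1 ∨ w = -1))) := by
    intro u v w
    simp only [Finset.mem_union, mem_orb, neg_zero]
    constructor
    · rintro ((⟨h1, h2, h3⟩ | ⟨h1, h2, h3⟩ | ⟨h1, h2, h3⟩ | ⟨h1, h2, h3⟩) |
          (⟨h1, h2, h3⟩ | ⟨h1, h2, h3⟩ | ⟨h1, h2, h3⟩ | ⟨h1, h2, h3⟩))
      · exact ⟨Or.inl h1, Or.inl ⟨Or.inl h2, h3⟩⟩
      · exact ⟨Or.inl h1, Or.inl ⟨Or.inr h2, h3⟩⟩
      · exact ⟨Or.inr h1, Or.inl ⟨Or.inl h2, h3⟩⟩
      · exact ⟨Or.inr h1, Or.inl ⟨Or.inr h2, h3⟩⟩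
      · exact ⟨Or.inl h1, Or.inr ⟨h2, Or.inl h3⟩⟩
      · exact ⟨Or.inl h1, Or.inr ⟨h2, Or.inr h3⟩⟩
      · exact ⟨Or.inr h1, Or.inr ⟨h2, Or.inr h3⟩⟩
      · exact ⟨Or.inr h1, Or.inr ⟨h2, Or.inl h3⟩⟩
    · rintro ⟨h1 | h1, ⟨h2 | h2, h3⟩ | ⟨h2, h3 | h3⟩⟩
      · exact Or.inl (Or.inl ⟨h1, h2, h3⟩)
      · exact Or.inl (Or.inr (Or.inl ⟨h1, h2, h3⟩))
      · exact Or.inr (Or.inl ⟨h1, h2, h3⟩)
      · exact Or.inr (Or.inr (Or.inl ⟨h1, h2, h3⟩))
      · exact Or.inl (Or.inr (Or.inr (Or.inl ⟨h1, h2, h3⟩)))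
      · exact Or.inl (Or.inr (Or.inr (Or.inr ⟨h1, h2, h3⟩)))
      · exact Or.inr (Or.inr (Or.inr (Or.inr ⟨h1, h2, h3⟩)))
      · exact Or.inr (Or.inr (Or.inr (Or.inl ⟨h1, h2, h3⟩)))
  refine h.reduceM _ ?_ ?_ ?_ (fun x y z hx hy hz hP => crossA h hX h2 h1 hx hy hz hP)
    (fun x y z hx hy hz hP => crossA h.mirror (by simpa using hX)
      (by simpa using h.P2 _ _ _ h2) (by simpa using h.P3 _ _ _ h1) hx hy hz hP)
  · intro u v w
    rw [hD, hD]
    rintro ⟨h1, ⟨h2, h3⟩ | ⟨h2, h3⟩⟩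
    · exact ⟨h1, Or.inl ⟨pm h2, nz h3⟩⟩
    · exact ⟨h1, Or.inr ⟨nz h2, pm h3⟩⟩
  · intro u v w
    rw [hD, hD]
    rintro ⟨h1, ⟨h2, h3⟩ | ⟨h2, h3⟩⟩
    · exact ⟨pm h1, Or.inl ⟨h2, nz h3⟩⟩
    · exact ⟨pm h1, Or.inr ⟨h2, pm h3⟩⟩
  · intro u v w
    rw [hD, hD]
    rintro ⟨h1, h2⟩
    exact ⟨pm h1, h2⟩

theorem eq_one_of {c z : ℝ} (hc : c ≤ 1) (hz : 0 ≤ z) (hz1 : z ≤ 1) (h : c * z = 1) : c = 1 := by
  have h1 : c * z ≤ 1 * z := mul_le_mul_of_nonneg_right hc hz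
  have h2 : z = 1 := by linarith
  rw [h2] at h
  linarith

/-- all contacts are even-good or odd-good: the points with nonnegative coordinates -/
theorem good_aux (h : Bod P N)
    (g1 : (∀ b c, N 1 b c → b + c < 1) ∨ (∀ b c, N 1 b c → b - c < 1))
    (g2 : (∀ a c, N a 1 c → a + c < 1) ∨ (∀ a c, N a 1 c → a - c < 1))
    (g3 : (∀ a b, N a b 1 → a + b < 1) ∨ (∀ a b, N a b 1 → a - b < 1))
    {x y z : ℝ} (hx : 0 ≤ x) (hy : 0 ≤ y) (hz : 0 ≤ z) (hP : P x y z) :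
    ∃ d ∈ orb 1 1 1 ∪ orb (-1) 1 1, L N x y z d := by
  have m1 : ((1 : ℝ), (1 : ℝ), (1 : ℝ)) ∈ orb 1 1 1 ∪ orb (-1) 1 1 := by simp [orb]
  have m2 : (-(1 : ℝ), (1 : ℝ), (1 : ℝ)) ∈ orb 1 1 1 ∪ orb (-1) 1 1 := by simp [orb]
  have m3 : ((1 : ℝ), -(1 : ℝ), (1 : ℝ)) ∈ orb 1 1 1 ∪ orb (-1) 1 1 := by simp [orb]
  have m4 : ((1 : ℝ), (1 : ℝ), -(1 : ℝ)) ∈ orb 1 1 1 ∪ orb (-1) 1 1 := by simp [orb]
  have hx1 := h.x_le hP
  have hy1 := h.y_le hP
  have hz1 := h.z_le hP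
  rcases hx.eq_or_lt with hx | hx
  · subst hx
    rcases hy.eq_or_lt with hy | hy
    · subst hy
      -- `e₃`
      rcases g3 with g | g
      · refine ⟨_, m1, fun a b c hN hE => ?_⟩
        have hc : c = 1 := eq_one_of (h.c_le hN) hz hz1 (by linarith)
        subst hc
        have := g _ _ (h.N3 _ _ _ hN)
        simp only
        linarith
      · refine ⟨_, m3, fun a b c hN hE => ?_⟩
        have hc : c = 1 := eq_one_of (h.c_le hN) hz hz1 (by linarith)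
        subst hc
        have := g _ _ (h.N3 _ _ _ hN)
        simp only
        linarith
    rcases hz.eq_or_lt with hz | hz
    · subst hz
      rcases g2 with g | g
      · refine ⟨_, m1, fun a b c hN hE => ?_⟩
        have hb : b = 1 := eq_one_of (h.b_le hN) hy.le hy1 (by linarith)
        subst hb
        have := g _ _ (h.N2 _ _ _ hN)
        simp only
        linarith
      · refine ⟨_, m4, fun a b c hN hE => ?_⟩
        have hb : b = 1 := eq_one_of (h.b_le hN) hy.le hy1 (by linarith)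
        subst hb
        have := g _ _ (h.N2 _ _ _ hN)
        simp only
        linarith
    -- `x = 0 < y, z`
    by_contra hcon
    push Not at hcon
    have c1 := hcon _ m1
    have c2 := hcon _ m2
    simp only [L, not_forall, not_lt] at c1 c2
    have fact : ∀ a b c, N a b c → a * 0 + b * y + c * z = 1 → 1 ≤ b + c := by
      intro a b c hN hE
      have hn := h.nor hP hN hE
      have h3 : 0 ≤ b := by
        by_contra h0
        push Not at h0
        have := mul_neg_of_neg_of_pos h0 hy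
        linarith [hn.p12]
      have h4 : 0 ≤ c := by
        by_contra h0
        push Not at h0
        have := mul_neg_of_neg_of_pos h0 hz
        linarith [hn.p13]
      have h5 : b * y ≤ b * 1 := mul_le_mul_of_nonneg_left hy1 h3
      have h6 : c * z ≤ c * 1 := mul_le_mul_of_nonneg_left hz1 h4
      linarith
    obtain ⟨a, b, c, hN, hE, hn⟩ := c1
    obtain ⟨a', b', c', hN', hE', hn'⟩ := c2
    have f1 := fact _ _ _ hN hE
    have f2 := fact _ _ _ hN' hE'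
    have k1 := (h.nor hP hN hE).a2
    have k2 := (h.nor hP hN' hE').a1
    have ha : a = -1 := by linarith
    have ha' : a' = 1 := by linarith
    subst ha ha'
    rcases g1 with g | g
    · have := g _ _ hN'
      linarith
    · have := h.N2 _ _ _ hN
      rw [neg_neg] at this
      have := g _ _ this
      linarith
  rcases hy.eq_or_lt with hy | hy
  · subst hy
    rcases hz.eq_or_lt with hz | hz
    · subst hz
      rcases g1 with g | g
      · refine ⟨_, m1, fun a b c hN hE => ?_⟩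
        have ha : a = 1 := eq_one_of (h.a_le hN) hx.le hx1 (by linarith)
        subst ha
        have := g _ _ (h.N1 _ _ _ hN)
        simp only
        linarith
      · refine ⟨_, m4, fun a b c hN hE => ?_⟩
        have ha : a = 1 := eq_one_of (h.a_le hN) hx.le hx1 (by linarith)
        subst ha
        have := g _ _ (h.N1 _ _ _ hN)
        simp only
        linarith
    by_contra hcon
    push Not at hcon
    have c1 := hcon _ m1
    have c2 := hcon _ m3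
    simp only [L, not_forall, not_lt] at c1 c2
    have fact : ∀ a b c, N a b c → a * x + b * 0 + c * z = 1 → 1 ≤ a + c := by
      intro a b c hN hE
      have hn := h.nor hP hN hE
      have h3 : 0 ≤ a := by
        by_contra h0
        push Not at h0
        have := mul_neg_of_neg_of_pos h0 hx
        linarith [hn.p12]
      have h4 : 0 ≤ c := by
        by_contra h0
        push Not at h0
        have := mul_neg_of_neg_of_pos h0 hz
        linarith [hn.p23]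
      have h5 : a * x ≤ a * 1 := mul_le_mul_of_nonneg_left hx1 h3
      have h6 : c * z ≤ c * 1 := mul_le_mul_of_nonneg_left hz1 h4
      linarith
    obtain ⟨a, b, c, hN, hE, hn⟩ := c1
    obtain ⟨a', b', c', hN', hE', hn'⟩ := c2
    have f1 := fact _ _ _ hN hE
    have f2 := fact _ _ _ hN' hE'
    have k1 := (h.nor hP hN hE).b2
    have k2 := (h.nor hP hN' hE').b1
    have ha : b = -1 := by linarith
    have ha' : b' = 1 := by linarith
    subst ha ha'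
    rcases g2 with g | g
    · have := g _ _ hN'
      linarith
    · have := h.N1 _ _ _ hN
      rw [neg_neg] at this
      have := g _ _ this
      linarith
  rcases hz.eq_or_lt with hz | hz
  · subst hz
    by_contra hcon
    push Not at hcon
    have c1 := hcon _ m1
    have c2 := hcon _ m4
    simp only [L, not_forall, not_lt] at c1 c2
    have fact : ∀ a b c, N a b c → a * x + b * y + c * 0 = 1 → 1 ≤ a + b := by
      intro a b c hN hE
      have hn := h.nor hP hN hE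
      have h3 : 0 ≤ a := by
        by_contra h0
        push Not at h0
        have := mul_neg_of_neg_of_pos h0 hx
        linarith [hn.p13]
      have h4 : 0 ≤ b := by
        by_contra h0
        push Not at h0
        have := mul_neg_of_neg_of_pos h0 hy
        linarith [hn.p23]
      have h5 : a * x ≤ a * 1 := mul_le_mul_of_nonneg_left hx1 h3
      have h6 : b * y ≤ b * 1 := mul_le_mul_of_nonneg_left hy1 h4
      linarith
    obtain ⟨a, b, c, hN, hE, hn⟩ := c1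
    obtain ⟨a', b', c', hN', hE', hn'⟩ := c2
    have f1 := fact _ _ _ hN hE
    have f2 := fact _ _ _ hN' hE'
    have k1 := (h.nor hP hN hE).c2
    have k2 := (h.nor hP hN' hE').c1
    have ha : c = -1 := by linarith
    have ha' : c' = 1 := by linarith
    subst ha ha'
    rcases g3 with g | g
    · have := g _ _ hN'
      linarith
    · have := h.N1 _ _ _ hN
      rw [neg_neg] at this
      have := g _ _ this
      linarith
  refine ⟨_, m1, fun a b c hN hE => ?_⟩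
  have := (h.nor hP hN hE).balanced hx hy hz hx1 hy1 hz1
  simp only
  linarith

theorem Bod.good (h : Bod P N)
    (g1 : (∀ b c, N 1 b c → b + c < 1) ∨ (∀ b c, N 1 b c → b - c < 1))
    (g2 : (∀ a c, N a 1 c → a + c < 1) ∨ (∀ a c, N a 1 c → a - c < 1))
    (g3 : (∀ a b, N a b 1 → a + b < 1) ∨ (∀ a b, N a b 1 → a - b < 1)) : Lit8 P N := by
  refine ⟨_, orb_union_card 1 1 1 (-1) 1 1, ?_⟩
  have hD : ∀ u v w : ℝ, (u, v, w) ∈ orb 1 1 1 ∪ orb (-1) 1 1 ↔ ((u = 1 ∨ u = -1) ∧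
      (v = 1 ∨ v = -1) ∧ (w = 1 ∨ w = -1)) := by
    intro u v w
    simp only [Finset.mem_union, mem_orb, neg_neg]
    constructor
    · rintro ((⟨h1, h2, h3⟩ | ⟨h1, h2, h3⟩ | ⟨h1, h2, h3⟩ | ⟨h1, h2, h3⟩) |
          (⟨h1, h2, h3⟩ | ⟨h1, h2, h3⟩ | ⟨h1, h2, h3⟩ | ⟨h1, h2, h3⟩))
      · exact ⟨Or.inl h1, Or.inl h2, Or.inl h3⟩
      · exact ⟨Or.inl h1, Or.inr h2, Or.inr h3⟩
      · exact ⟨Or.inr h1, Or.inl h2, Or.inr h3⟩
      · exact ⟨Or.inr h1, Or.inr h2, Or.inl h3⟩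
      · exact ⟨Or.inr h1, Or.inl h2, Or.inl h3⟩
      · exact ⟨Or.inr h1, Or.inr h2, Or.inr h3⟩
      · exact ⟨Or.inl h1, Or.inl h2, Or.inr h3⟩
      · exact ⟨Or.inl h1, Or.inr h2, Or.inl h3⟩
    · rintro ⟨h1 | h1, h2 | h2, h3 | h3⟩
      · exact Or.inl (Or.inl ⟨h1, h2, h3⟩)
      · exact Or.inr (Or.inr (Or.inr (Or.inl ⟨h1, h2, h3⟩)))
      · exact Or.inr (Or.inr (Or.inr (Or.inr ⟨h1, h2, h3⟩)))
      · exact Or.inl (Or.inr (Or.inl ⟨h1, h2, h3⟩))
      · exact Or.inr (Or.inl ⟨h1, h2, h3⟩)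
      · exact Or.inl (Or.inr (Or.inr (Or.inl ⟨h1, h2, h3⟩)))
      · exact Or.inl (Or.inr (Or.inr (Or.inr ⟨h1, h2, h3⟩)))
      · exact Or.inr (Or.inr (Or.inl ⟨h1, h2, h3⟩))
  refine h.reduceM _ ?_ ?_ ?_ (fun x y z hx hy hz hP => good_aux h g1 g2 g3 hx hy hz hP)
    (fun x y z hx hy hz hP => good_aux h.mirror ?_ ?_ ?_ hx hy hz hP)
  · intro u v w
    rw [hD, hD]
    rintro ⟨h1, h2, h3⟩
    exact ⟨h1, pm h2, pm h3⟩
  · intro u v w
    rw [hD, hD]
    rintro ⟨h1, h2, h3⟩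
    exact ⟨pm h1, h2, pm h3⟩
  · intro u v w
    rw [hD, hD]
    rintro ⟨h1, h2, h3⟩
    exact ⟨pm h1, h2, h3⟩
  · rcases g1 with g | g
    · right
      intro b c hN
      have := g _ _ (by simpa using h.N2 _ _ _ hN)
      linarith
    · left
      intro b c hN
      have := g _ _ (by simpa using h.N2 _ _ _ hN)
      linarith
  · rcases g2 with g | g
    · right
      intro a c hN
      have := g _ _ (by simpa using h.N2 _ _ _ hN)
      linarith
    · left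
      intro a c hN
      have := g _ _ (by simpa using h.N2 _ _ _ hN)
      linarith
  · rcases g3 with g | g
    · right
      intro a b hN
      have := g _ _ (by simpa using h.N3 _ _ _ hN)
      linarith
    · left
      intro a b hN
      have := g _ _ (by simpa using h.N3 _ _ _ hN)
      linarith

/-- **Eight directions suffice.** -/
theorem Bod.lit8 (h : Bod P N) : Lit8 P N := by
  by_cases x1 : N 0 1 1
  · exact h.cross x1
  by_cases x2 : N 1 0 1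
  · exact Lit8.of_swap12 (h.swap12.cross x2)
  by_cases x3 : N 1 1 0
  · exact Lit8.of_swap23 (Lit8.of_swap12 (h.swap23.swap12.cross x3))
  have key : ∀ (P N : ℝ → ℝ → ℝ → Prop), Bod P N → ¬ N 0 1 1 →
      ¬ ((∀ b c, N 1 b c → b + c < 1) ∨ (∀ b c, N 1 b c → b - c < 1)) → Lit8 P N := by
    intro P N h hX hg
    push Not at hg
    obtain ⟨⟨p, q, h1, h2⟩, p', q', h3, h4⟩ := hg
    exact h.case_neither h1 h2 (h.N2 _ _ _ h3) (by linarith) hX
  by_cases g1 : (∀ b c, N 1 b c → b + c < 1) ∨ (∀ b c, N 1 b c → b - c < 1)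
  swap
  · exact key P N h x1 g1
  by_cases g2 : (∀ a c, N a 1 c → a + c < 1) ∨ (∀ a c, N a 1 c → a - c < 1)
  swap
  · exact Lit8.of_swap12 (key _ _ h.swap12 x2 g2)
  by_cases g3 : (∀ a b, N a b 1 → a + b < 1) ∨ (∀ a b, N a b 1 → a - b < 1)
  swap
  · exact Lit8.of_swap23 (Lit8.of_swap12 (key _ _ h.swap23.swap12 x3 g3))
  exact h.good g1 g2 g3

end Pool.Agent.H768.D2
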