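import Pool.Agent.H768.D2.Bod

/-!
The three cases of the theorem for convex bodies invariant under three half-turns.
-/

set_option autoImplicit false

namespace Pool.Agent.H768.D2

variable {P N : ℝ → ℝ → ℝ → Prop}

theorem Bod.x_lt (h : Bod P N) {p q : ℝ} (hN : N 1 p q) (hpq : 1 ≤ p + q) {x y z : ℝ}
    (hy : 0 < y) (hz : 0 < z) (hP : P x y z) : x < 1 := by
  have h1 := h.pol _ _ _ _ _ _ hP hN
  have h2 := h.b_le hN
  have h3 := h.c_le hN
  have h4 : 0 ≤ p * y := mul_nonneg (by linarith) hy.le
  have h5 : 0 ≤ q * z := mul_nonneg (by linarith) hz.le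
  rcases lt_or_ge 0 p with hp | hp
  · have := mul_pos hp hy
    linarith
  · have : 0 < q * z := mul_pos (by linarith) hz
    linarith

theorem Bod.x_le' (h : Bod P N) {p q : ℝ} (hN : N 1 p q) (hpq : 1 ≤ p + q) {x y z : ℝ}
    (hy : 0 < y) (hyz : y ≤ z) (hP : P x y z) : x ≤ 1 - y := by
  have h1 := h.pol _ _ _ _ _ _ hP hN
  have h2 := h.b_le hN
  have h3 := h.c_le hN
  have h4 : q * y ≤ q * z := mul_le_mul_of_nonneg_left hyz (by linarith)
  have h5 : 1 * y ≤ (p + q) * y := mul_le_mul_of_nonneg_right hpq hy.le
  linarith

/-- the configuration for a body with a contact `e₁` which is neither even-good nor odd-good;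
the octants of the points with only one negative coordinate are a hypothesis -/
theorem Bod.even (h : Bod P N) {s e : ℝ} (hs : 0 < s) (hs1 : s < 1) (he : 0 ≤ e) (he1 : e < 1)
    (h1 : ∀ b c, N 1 b c → 0 < 1 + s * (b + c))
    (h2 : 1 / 2 < s ∨ N 1 1 1)
    {p q : ℝ} (hν : N 1 p q) (hpq : 1 ≤ p + q)
    (hX : ¬ N 0 1 1)
    (he2 : ∀ a c, N a 1 c → 0 < e * a + 1 + c)
    (he3 : ∀ a b, N a b 1 → 0 < e * a + b + 1)
    (hodd : ∀ x y z, 0 < x → 0 < y → 0 < z → P (-x) y z →
      ∃ d ∈ orb 1 s s ∪ orb e 1 1, L N (-x) y z d) :
    ∀ x y z, P x y z → ∃ d ∈ orb 1 s s ∪ orb e 1 1, L N x y z d := by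
  refine h.reduce' _ _ _ _ _ _ ?_ hodd
  have m1 : ((1 : ℝ), s, s) ∈ orb 1 s s ∪ orb e 1 1 := by simp [orb]
  have m2 : (e, (1 : ℝ), (1 : ℝ)) ∈ orb 1 s s ∪ orb e 1 1 := by simp [orb]
  have hX' : ¬ N 0 (-1) 1 := by
    intro hN
    have := h.N3 _ _ _ hN
    simp only [neg_neg, neg_zero] at this
    exact hX this
  have hX'' : ¬ N 0 1 (-1) := by
    intro hN
    have := h.N2 _ _ _ hN
    simp only [neg_neg, neg_zero] at this
    exact hX this
  intro x y z hx hy hz hP
  have hx1 := h.x_le hP
  have hy1 := h.y_le hP
  have hz1 := h.z_le hP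
  rcases hx.eq_or_lt with hx | hx
  · -- x = 0
    subst hx
    refine ⟨_, m2, fun a b c hN hE => ?_⟩
    have hn := h.nor hP hN hE
    simp only
    rcases hy.eq_or_lt with hy | hy
    · subst hy
      have hc : c = 1 := by
        have h3 : 0 < z := by
          by_contra h0
          push Not at h0
          have : z = 0 := le_antisymm h0 hz
          rw [this] at hE
          norm_num at hE
        have h4 : c * z ≤ 1 * z := mul_le_mul_of_nonneg_right hn.c1 hz
        have h5 := hn.c1
        by_contra h0
        have h6 : c < 1 := lt_of_le_of_ne h5 h0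
        have h7 : c * z < 1 * z := mul_lt_mul_of_pos_right h6 h3
        linarith
      subst hc
      have := he3 a b hN
      linarith
    rcases hz.eq_or_lt with hz | hz
    · subst hz
      have hb : b = 1 := by
        have h5 := hn.b1
        by_contra h0
        have h6 : b < 1 := lt_of_le_of_ne h5 h0
        have h7 : b * y < 1 * y := mul_lt_mul_of_pos_right h6 hy
        linarith
      subst hb
      have := he2 a c hN
      linarith
    have h3 : 0 ≤ b := by
      by_contra h0
      push Not at h0
      have := mul_neg_of_neg_of_pos h0 hy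
      linarith [hn.p12]
    have h4 : 0 ≤ c := by
      by_contra h0
      push Not at h0
      have := mul_neg_of_neg_of_pos h0 hz
      linarith [hn.p13]
    have h5 : b * y ≤ b * 1 := mul_le_mul_of_nonneg_left hy1 h3
    have h6 : c * z ≤ c * 1 := mul_le_mul_of_nonneg_left hz1 h4
    have h7 : e * (-1) ≤ e * a := mul_le_mul_of_nonneg_left hn.a2 he
    linarith
  · -- 0 < x
    rcases hy.eq_or_lt with hy | hy
    · subst hy
      refine ⟨_, m1, fun a b c hN hE => ?_⟩
      have hn := h.nor hP hN hE
      simp only
      rcases hz.eq_or_lt with hz | hz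
      · subst hz
        have ha : a = 1 := by
          by_contra h0
          have h6 : a < 1 := lt_of_le_of_ne hn.a1 h0
          have h7 : a * x < 1 * x := mul_lt_mul_of_pos_right h6 hx
          linarith
        subst ha
        have := h1 b c hN
        linarith
      · have h3 : 0 ≤ a := by
          by_contra h0
          push Not at h0
          have := mul_neg_of_neg_of_pos h0 hx
          linarith [hn.p12]
        have h4 : 0 ≤ c := by
          by_contra h0
          push Not at h0
          have := mul_neg_of_neg_of_pos h0 hz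
          linarith [hn.p23]
        by_contra h0
        push Not at h0
        have h5 : a * x ≤ a * 1 := mul_le_mul_of_nonneg_left hx1 h3
        have h6 : c * z ≤ c * 1 := mul_le_mul_of_nonneg_left hz1 h4
        have h7 : s * (-1) ≤ s * b := mul_le_mul_of_nonneg_left hn.b2 hs.le
        have h8 : s * 1 ≤ s * (a + c) := mul_le_mul_of_nonneg_left (by linarith) hs.le
        have h9 : 0 ≤ (1 - s) * a := mul_nonneg (by linarith) h3
        have h10 : (1 - s) * a = 0 := by linarith
        have h11 : a = 0 := by
          rcases mul_eq_zero.1 h10 with h | h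
          · linarith
          · exact h
        subst h11
        have h12 : c = 1 := by linarith [hn.c1]
        subst h12
        have h13 : s * (b + 1) ≤ 0 := by linarith
        have h14 : b = -1 := by
          by_contra h00
          have h15 : -1 < b := lt_of_le_of_ne hn.b2 (Ne.symm h00)
          have := mul_pos hs (by linarith : 0 < b + 1)
          linarith
        subst h14
        exact hX' hN
    rcases hz.eq_or_lt with hz | hz
    · subst hz
      refine ⟨_, m1, fun a b c hN hE => ?_⟩
      have hn := h.nor hP hN hE
      simp only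
      have h3 : 0 ≤ a := by
        by_contra h0
        push Not at h0
        have := mul_neg_of_neg_of_pos h0 hx
        linarith [hn.p13]
      have h4 : 0 ≤ b := by
        by_contra h0
        push Not at h0
        have := mul_neg_of_neg_of_pos h0 hy
        linarith [hn.p23]
      by_contra h0
      push Not at h0
      have h5 : a * x ≤ a * 1 := mul_le_mul_of_nonneg_left hx1 h3
      have h6 : b * y ≤ b * 1 := mul_le_mul_of_nonneg_left hy1 h4
      have h7 : s * (-1) ≤ s * c := mul_le_mul_of_nonneg_left hn.c2 hs.le
      have h8 : s * 1 ≤ s * (a + b) := mul_le_mul_of_nonneg_left (by linarith) hs.le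
      have h9 : 0 ≤ (1 - s) * a := mul_nonneg (by linarith) h3
      have h10 : (1 - s) * a = 0 := by linarith
      have h11 : a = 0 := by
        rcases mul_eq_zero.1 h10 with h | h
        · linarith
        · exact h
      subst h11
      have h12 : b = 1 := by linarith [hn.b1]
      subst h12
      have h13 : s * (1 + c) ≤ 0 := by linarith
      have h14 : c = -1 := by
        by_contra h00
        have h15 : -1 < c := lt_of_le_of_ne hn.c2 (Ne.symm h00)
        have := mul_pos hs (by linarith : 0 < 1 + c)
        linarith
      subst h14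
      exact hX'' hN
    -- the open octant
    by_contra hcon
    push Not at hcon
    have c1 := hcon _ m1
    have c2 := hcon _ m2
    simp only [L, not_forall, not_lt] at c1 c2
    obtain ⟨a', b', c', hN', hE', hn'⟩ := c1
    obtain ⟨a, b, c, hN, hE, hn⟩ := c2
    refine same hx hy hz (h.x_lt hν hpq hy hz hP) hy1 hz1 (h.nor hP hN hE) (h.nor hP hN' hE') hs hs1
      he he1.le (by linarith) (by linarith) ?_
    rcases h2 with h2 | h2
    · exact Or.inl h2
    · right
      have := h.pol _ _ _ _ _ _ hP h2
      linarith

end Pool.Agent.H768.D2
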