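import Pool.Agent.H768.D2.Dual
import Pool.Graph.R_seed8.W867.Cov3.Sym2

/-!
Affine symmetries: the normal form of two commuting half-turns.
-/

set_option autoImplicit false

open Set Topology Module

namespace Pool.Agent.H768.D2

open Pool.Agent.W867.Cov3 (Cov8)

theorem trace_of_inv (A : Matrix (Fin 3) (Fin 3) ℝ) (h2 : A * A = 1) (hd : A.det = 1)
    (hne : A ≠ 1) : A.trace = -1 := by
  have hadj : A.adjugate = A := by
    have h3 : A * A.adjugate = 1 := by
      rw [Matrix.mul_adjugate, hd, one_smul]
    calc A.adjugate = (A * A) * A.adjugate := by rw [h2, one_mul]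
      _ = A * (A * A.adjugate) := by rw [mul_assoc]
      _ = A := by rw [h3, mul_one]
  rw [Matrix.adjugate_fin_three] at hadj
  have e : ∀ i j, (A * A) i j = (1 : Matrix (Fin 3) (Fin 3) ℝ) i j := fun i j => by rw [h2]
  simp only [Matrix.mul_apply, Fin.sum_univ_three] at e
  have e00 := e 0 0
  have e01 := e 0 1
  have e02 := e 0 2
  have e10 := e 1 0
  have e11 := e 1 1
  have e12 := e 1 2
  have e20 := e 2 0
  have e21 := e 2 1
  have e22 := e 2 2
  simp at e00 e01 e02 e10 e11 e12 e20 e21 e22
  have a00 := congrFun (congrFun hadj 0) 0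
  have a01 := congrFun (congrFun hadj 0) 1
  have a02 := congrFun (congrFun hadj 0) 2
  have a10 := congrFun (congrFun hadj 1) 0
  have a11 := congrFun (congrFun hadj 1) 1
  have a12 := congrFun (congrFun hadj 1) 2
  have a20 := congrFun (congrFun hadj 2) 0
  have a21 := congrFun (congrFun hadj 2) 1
  have a22 := congrFun (congrFun hadj 2) 2
  simp at a00 a01 a02 a10 a11 a12 a20 a21 a22
  by_contra ht
  rw [Matrix.trace_fin_three] at ht
  have ht' : 1 + (A 0 0 + A 1 1 + A 2 2) ≠ 0 := fun h => ht (by linarith)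
  apply hne
  ext i j
  fin_cases i <;> fin_cases j <;> simp
  · have : (1 + (A 0 0 + A 1 1 + A 2 2)) * (A 0 0 - 1) = 0 := by
      linear_combination e00 + a22 + a11
    rcases mul_eq_zero.1 this with h | h
    · exact absurd h ht'
    · linarith
  · have : (1 + (A 0 0 + A 1 1 + A 2 2)) * A 0 1 = 0 := by
      linear_combination e01 - a01
    exact (mul_eq_zero.1 this).resolve_left ht'
  · have : (1 + (A 0 0 + A 1 1 + A 2 2)) * A 0 2 = 0 := by
      linear_combination e02 - a02
    exact (mul_eq_zero.1 this).resolve_left ht'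
  · have : (1 + (A 0 0 + A 1 1 + A 2 2)) * A 1 0 = 0 := by
      linear_combination e10 - a10
    exact (mul_eq_zero.1 this).resolve_left ht'
  · have : (1 + (A 0 0 + A 1 1 + A 2 2)) * (A 1 1 - 1) = 0 := by
      linear_combination e11 + a22 + a00
    rcases mul_eq_zero.1 this with h | h
    · exact absurd h ht'
    · linarith
  · have : (1 + (A 0 0 + A 1 1 + A 2 2)) * A 1 2 = 0 := by
      linear_combination e12 - a12
    exact (mul_eq_zero.1 this).resolve_left ht'
  · have : (1 + (A 0 0 + A 1 1 + A 2 2)) * A 2 0 = 0 := by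
      linear_combination e20 - a20
    exact (mul_eq_zero.1 this).resolve_left ht'
  · have : (1 + (A 0 0 + A 1 1 + A 2 2)) * A 2 1 = 0 := by
      linear_combination e21 - a21
    exact (mul_eq_zero.1 this).resolve_left ht'
  · have : (1 + (A 0 0 + A 1 1 + A 2 2)) * (A 2 2 - 1) = 0 := by
      linear_combination e22 + a11 + a00
    rcases mul_eq_zero.1 this with h | h
    · exact absurd h ht'
    · linarith

variable {V : Type*} [NormedAddCommGroup V] [NormedSpace ℝ V]

theorem trace_of_inv' [FiniteDimensional ℝ V] (hdim : finrank ℝ V = 3) (F : V →ₗ[ℝ] V)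
    (h2 : F * F = 1) (hd : LinearMap.det F = 1) (hne : F ≠ 1) : LinearMap.trace ℝ V F = -1 := by
  let b := finBasisOfFinrankEq ℝ V hdim
  rw [LinearMap.trace_eq_matrix_trace ℝ b]
  refine trace_of_inv _ ?_ ?_ ?_
  · rw [← LinearMap.toMatrix_mul, h2, LinearMap.toMatrix_one]
  · rw [LinearMap.det_toMatrix, hd]
  · intro h
    apply hne
    apply (LinearMap.toMatrix b b).injective
    rw [h, LinearMap.toMatrix_one]

theorem det_of_inv (F : V →ₗ[ℝ] V) (h2 : F * F = 1) (hd : 0 < LinearMap.det F) :
    LinearMap.det F = 1 := by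
  have h := congrArg LinearMap.det h2
  rw [map_mul, map_one] at h
  nlinarith

theorem sum_zero [FiniteDimensional ℝ V] (hdim : finrank ℝ V = 3) (F G : V →ₗ[ℝ] V)
    (hF : F * F = 1) (hG : G * G = 1) (hFG : F * G = G * F) (dF : LinearMap.det F = 1)
    (dG : LinearMap.det G = 1) (nF : F ≠ 1) (nG : G ≠ 1) (nFG : F ≠ G) :
    1 + F + G + F * G = 0 := by
  have hH : (F * G) * (F * G) = 1 := by
    calc (F * G) * (F * G) = F * (G * F) * G := by simp only [mul_assoc]
      _ = F * (F * G) * G := by rw [hFG]
      _ = (F * F) * (G * G) := by simp only [mul_assoc]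
      _ = 1 := by rw [hF, hG, one_mul]
  have nH : F * G ≠ 1 := by
    intro h
    apply nFG
    calc F = F * (G * G) := by rw [hG, mul_one]
      _ = (F * G) * G := by rw [mul_assoc]
      _ = G := by rw [h, one_mul]
  have t1 := trace_of_inv' hdim F hF dF nF
  have t2 := trace_of_inv' hdim G hG dG nG
  have t3 := trace_of_inv' hdim (F * G) hH (by rw [map_mul, dF, dG, one_mul]) nH
  have hidem : IsIdempotentElem ((1 / 4 : ℝ) • (1 + F + G + F * G)) := by
    unfold IsIdempotentElem
    rw [smul_mul_smul_comm]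
    have e : (1 + F + G + F * G) * (1 + F + G + F * G) = (4 : ℝ) • (1 + F + G + F * G) := by
      have k1 : F * (F * G) = G := by rw [← mul_assoc, hF, one_mul]
      have k2 : G * F = F * G := hFG.symm
      have k3 : G * (F * G) = F := by rw [← mul_assoc, k2, mul_assoc, hG, mul_one]
      have k4 : F * G * F = G := by rw [mul_assoc, k2, k1]
      have k5 : F * G * G = F := by rw [mul_assoc, hG, mul_one]
      simp only [mul_add, add_mul, mul_one, one_mul, hF, hG, hH, k1, k2, k3, k4, k5]
      module
    rw [e, smul_smul]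
    norm_num
  have htr : LinearMap.trace ℝ V ((1 / 4 : ℝ) • (1 + F + G + F * G)) = 0 := by
    rw [map_smul, map_add, map_add, map_add, t1, t2, t3, LinearMap.trace_one, hdim]
    norm_num
  have h0 := LinearMap.IsIdempotentElem.eq_zero_of_trace_eq_zero hidem htr
  have := congrArg (fun T : V →ₗ[ℝ] V => (4 : ℝ) • T) h0
  simp only [smul_smul, smul_zero] at this
  norm_num at this
  exact this

theorem exists_vec [FiniteDimensional ℝ V] (hdim : finrank ℝ V = 3) (F : V →ₗ[ℝ] V)
    (hF : F * F = 1) (dF : LinearMap.det F = 1) (nF : F ≠ 1) : ∃ v, v + F v ≠ 0 := by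
  by_contra hcon
  push Not at hcon
  have h1 : F = -1 := by
    ext v
    have := hcon v
    rw [add_comm] at this
    simpa using eq_neg_of_add_eq_zero_left this
  have t1 := trace_of_inv' hdim F hF dF nF
  rw [h1, map_neg, LinearMap.trace_one, hdim] at t1
  norm_num at t1

theorem ht_form [FiniteDimensional ℝ V] (hdim : finrank ℝ V = 3) (F G : V →ₗ[ℝ] V)
    (hF : F * F = 1) (hG : G * G = 1) (hFG : F * G = G * F) (dF : LinearMap.det F = 1)
    (dG : LinearMap.det G = 1) (nF : F ≠ 1) (nG : G ≠ 1) (nFG : F ≠ G) :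
    ∃ L : (ℝ × ℝ × ℝ) ≃ₗ[ℝ] V, (∀ x y z, F (L (x, y, z)) = L (x, -y, -z)) ∧
      (∀ x y z, G (L (x, y, z)) = L (-x, y, -z)) := by
  have hsum := sum_zero hdim F G hF hG hFG dF dG nF nG nFG
  have hH : (F * G) * (F * G) = 1 := by
    calc (F * G) * (F * G) = F * (G * F) * G := by simp only [mul_assoc]
      _ = F * (F * G) * G := by rw [hFG]
      _ = (F * F) * (G * G) := by simp only [mul_assoc]
      _ = 1 := by rw [hF, hG, one_mul]
  have nH : F * G ≠ 1 := by
    intro h
    apply nFG
    calc F = F * (G * G) := by rw [hG, mul_one]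
      _ = (F * G) * G := by rw [mul_assoc]
      _ = G := by rw [h, one_mul]
  have s : ∀ v, v + F v + G v + F (G v) = 0 := fun v => by
    have := congrArg (fun T : V →ₗ[ℝ] V => T v) hsum
    simpa using this
  have fF : ∀ v, F (F v) = v := fun v => by
    have := congrArg (fun T : V →ₗ[ℝ] V => T v) hF
    simpa using this
  have fG : ∀ v, G (G v) = v := fun v => by
    have := congrArg (fun T : V →ₗ[ℝ] V => T v) hG
    simpa using this
  have fFG : ∀ v, G (F v) = F (G v) := fun v => by
    have := congrArg (fun T : V →ₗ[ℝ] V => T v) hFG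
    simpa using this.symm
  obtain ⟨v1, h1⟩ := exists_vec hdim F hF dF nF
  obtain ⟨v2, h2⟩ := exists_vec hdim G hG dG nG
  obtain ⟨v3, h3⟩ := exists_vec hdim (F * G) hH (by rw [map_mul, dF, dG, one_mul]) nH
  rw [Module.End.mul_apply] at h3
  obtain ⟨b1, hb1⟩ : ∃ b1, b1 = v1 + F v1 := ⟨_, rfl⟩
  obtain ⟨b2, hb2⟩ : ∃ b2, b2 = v2 + G v2 := ⟨_, rfl⟩
  obtain ⟨b3, hb3⟩ : ∃ b3, b3 = v3 + F (G v3) := ⟨_, rfl⟩
  rw [← hb1] at h1
  rw [← hb2] at h2
  rw [← hb3] at h3
  have F1 : F b1 = b1 := by
    rw [hb1, map_add, fF]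
    abel
  have G1 : G b1 = -b1 := by
    rw [hb1, map_add, fFG, eq_neg_iff_add_eq_zero]
    have := s v1
    rw [← this]
    abel
  have G2 : G b2 = b2 := by
    rw [hb2, map_add, fG]
    abel
  have F2 : F b2 = -b2 := by
    rw [hb2, map_add, eq_neg_iff_add_eq_zero]
    have := s v2
    rw [← this]
    abel
  have F3 : F b3 = -b3 := by
    rw [hb3, map_add, fF, eq_neg_iff_add_eq_zero]
    have := s v3
    rw [← this]
    abel
  have G3 : G b3 = -b3 := by
    rw [hb3, map_add, fFG, fG, eq_neg_iff_add_eq_zero]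
    have := s v3
    rw [← this]
    abel
  let L₀ : (ℝ × ℝ × ℝ) →ₗ[ℝ] V :=
    { toFun := fun p => p.1 • b1 + p.2.1 • b2 + p.2.2 • b3
      map_add' := fun p q => by
        simp only [Prod.fst_add, Prod.snd_add, add_smul]
        abel
      map_smul' := fun r p => by
        simp only [Prod.smul_fst, Prod.smul_snd, smul_eq_mul, mul_smul, RingHom.id_apply,
          smul_add] }
  have hL₀ : ∀ x y z, L₀ (x, y, z) = x • b1 + y • b2 + z • b3 := fun _ _ _ => rfl
  have hinj : Function.Injective L₀ := by
    rw [← LinearMap.ker_eq_bot, LinearMap.ker_eq_bot']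
    rintro ⟨x, y, z⟩ h
    rw [hL₀] at h
    have hFv := congrArg F h
    have hGv := congrArg G h
    rw [map_add, map_add, map_smul, map_smul, map_smul, F1, F2, F3, map_zero] at hFv
    rw [map_add, map_add, map_smul, map_smul, map_smul, G1, G2, G3, map_zero] at hGv
    have k1 : (2 * x) • b1 = 0 := by
      have := congrArg₂ (· + ·) h hFv
      simp only [add_zero] at this
      rw [← this]
      module
    have k2 : (2 * y) • b2 = 0 := by
      have := congrArg₂ (· + ·) h hGv
      simp only [add_zero] at this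
      rw [← this]
      module
    have k3 : (2 * z) • b3 = 0 := by
      have := congrArg₂ (· + ·) hFv hGv
      simp only [add_zero] at this
      have h4 : (-(2 * z)) • b3 = 0 := by
        rw [← this]
        module
      rwa [neg_smul, neg_eq_zero] at h4
    have x0 : x = 0 := by
      rcases smul_eq_zero.1 k1 with h | h
      · linarith
      · exact absurd h h1
    have y0 : y = 0 := by
      rcases smul_eq_zero.1 k2 with h | h
      · linarith
      · exact absurd h h2
    have z0 : z = 0 := by
      rcases smul_eq_zero.1 k3 with h | h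
      · linarith
      · exact absurd h h3
    rw [x0, y0, z0]
    rfl
  have hfr : finrank ℝ (ℝ × ℝ × ℝ) = finrank ℝ V := by
    rw [hdim]
    simp
  refine ⟨LinearMap.linearEquivOfInjective L₀ hinj hfr, ?_, ?_⟩
  · intro x y z
    simp only [LinearMap.linearEquivOfInjective_apply]
    rw [hL₀, hL₀, map_add, map_add, map_smul, map_smul, map_smul, F1, F2, F3]
    module
  · intro x y z
    simp only [LinearMap.linearEquivOfInjective_apply]
    rw [hL₀, hL₀, map_add, map_add, map_smul, map_smul, map_smul, G1, G2, G3]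
    module

/-- the theorem for two commuting linear half-turns -/
theorem cov_two [FiniteDimensional ℝ V] (hdim : finrank ℝ V = 3) {K : Set V}
    (hK : Convex ℝ K) (hc : IsCompact K) (hint : (interior K).Nonempty) (F G : V →ₗ[ℝ] V)
    (hF : F * F = 1) (hG : G * G = 1) (hFG : F * G = G * F) (dF : LinearMap.det F = 1)
    (dG : LinearMap.det G = 1) (nF : F ≠ 1) (nG : G ≠ 1) (nFG : F ≠ G)
    (hFK : ∀ v ∈ K, F v ∈ K) (hGK : ∀ v ∈ K, G v ∈ K) : Cov8 K := by
  obtain ⟨L, hLF, hLG⟩ := ht_form hdim F G hF hG hFG dF dG nF nG nFG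
  let Lc : V ≃L[ℝ] (ℝ × ℝ × ℝ) := L.symm.toContinuousLinearEquiv
  have hLc : ∀ v, Lc v = L.symm v := fun v => rfl
  have hmem : ∀ p, p ∈ Lc '' K ↔ L p ∈ K := by
    intro p
    constructor
    · rintro ⟨v, hv, rfl⟩
      rw [hLc, L.apply_symm_apply]
      exact hv
    · intro hp
      exact ⟨L p, hp, by rw [hLc, L.symm_apply_apply]⟩
  have hht : HT (Lc '' K) :=
    { conv := hK.linear_image (Lc : V →L[ℝ] (ℝ × ℝ × ℝ)).toLinearMap
      comp := hc.image Lc.continuous
      int := by
        have h5 : interior (Lc '' K) = Lc '' interior K :=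
          (Lc.toHomeomorph.image_interior K).symm
        rw [h5]
        exact hint.image _
      R1 := fun x y z hx => by
        rw [hmem] at hx ⊢
        rw [← hLF]
        exact hFK _ hx
      R2 := fun x y z hx => by
        rw [hmem] at hx ⊢
        rw [← hLG]
        exact hGK _ hx }
  obtain ⟨D, hD, hl⟩ := hht.lit
  obtain ⟨T, hT, hcov⟩ := Pool.Agent.Y512.cover_of_lit hht.conv hht.comp D hl
  exact Cov8.of_image Lc ⟨T, hT.trans hD, hcov⟩

/-- two different orientation preserving affine symmetries, none of them the identity -/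
theorem cov_affine_two [FiniteDimensional ℝ V] (hdim : finrank ℝ V = 3) {K : Set V}
    (hK : Convex ℝ K) (hc : IsCompact K) (hint : (interior K).Nonempty) (f g : V →ᵃ[ℝ] V)
    (hf : f '' K = K) (hg : g '' K = K) (df : 0 < LinearMap.det f.linear)
    (dg : 0 < LinearMap.det g.linear) (nf : ∃ v, f v ≠ v) (ng : ∃ v, g v ≠ v)
    (nfg : ∃ v, f v ≠ g v) : Cov8 K := by
  by_cases h1 : ∃ v, f (f v) ≠ v
  · exact Pool.Agent.W867.Cov3.cov_affine hdim hK hc hint f hf df h1
  by_cases h2 : ∃ v, g (g v) ≠ v
  · exact Pool.Agent.W867.Cov3.cov_affine hdim hK hc hint g hg dg h2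
  by_cases h3 : ∃ v, f (g (f (g v))) ≠ v
  · refine Pool.Agent.W867.Cov3.cov_affine hdim hK hc hint (f.comp g) ?_ ?_ ?_
    · have : (f.comp g : V → V) = f ∘ g := rfl
      rw [this, image_comp, hg, hf]
    · have : (f.comp g).linear = f.linear * g.linear := rfl
      rw [this, map_mul]
      exact mul_pos df dg
    · exact h3
  push Not at h1 h2 h3
  have hcomm : ∀ v, f (g v) = g (f v) := by
    intro v
    have := h3 v
    have h4 : g (f (g v)) = f v := by
      have := congrArg f this
      rwa [h1] at this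
    have h5 := congrArg g h4
    rwa [h2] at h5
  have hfK : ∀ x ∈ K, f x ∈ K := fun x hx => by
    rw [← hf]
    exact mem_image_of_mem f hx
  have hgK : ∀ x ∈ K, g x ∈ K := fun x hx => by
    rw [← hg]
    exact mem_image_of_mem g hx
  -- a common fixed point
  obtain ⟨c₀, hc₀K, hfc₀⟩ := Pool.Agent.W867.Cov3.exists_fixed f hK hc
    (hint.mono interior_subset) hfK
  have hfcont : Continuous f := f.continuous_of_finiteDimensional
  obtain ⟨c, ⟨hcK, hfc⟩, hgc⟩ := Pool.Agent.W867.Cov3.exists_fixed g (K := K ∩ {x | f x = x})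
    (by
      refine hK.inter ?_
      intro x hx y hy a b ha hb hab
      have hx' : f x = x := hx
      have hy' : f y = y := hy
      change f (a • x + b • y) = a • x + b • y
      rw [Convex.combo_affine_apply hab, hx', hy'])
    (hc.inter_right (isClosed_eq hfcont continuous_id)) ⟨c₀, hc₀K, hfc₀⟩
    (by
      rintro x ⟨hx, hx'⟩
      refine ⟨hgK x hx, ?_⟩
      have hx' : f x = x := hx'
      change f (g x) = g x
      rw [hcomm, hx'])
  have hfc : f c = c := hfc
  have hfv : ∀ v, f (c + v) = c + f.linear v := by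
    intro v
    have := f.map_vadd c v
    simp only [vadd_eq_add] at this
    rw [add_comm, this, hfc, add_comm]
  have hgv : ∀ v, g (c + v) = c + g.linear v := by
    intro v
    have := g.map_vadd c v
    simp only [vadd_eq_add] at this
    rw [add_comm, this, hgc, add_comm]
  have himg : (fun x => -c + x) '' K = {v | c + v ∈ K} := by
    ext v
    constructor
    · rintro ⟨x, hx, rfl⟩
      change c + (-c + x) ∈ K
      rwa [add_neg_cancel_left]
    · intro hv
      exact ⟨c + v, hv, neg_add_cancel_left _ _⟩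
  have lf : ∀ v, f.linear v = f (c + v) - c := fun v => by rw [hfv]; abel
  have lg : ∀ v, g.linear v = g (c + v) - c := fun v => by rw [hgv]; abel
  have eF : f.linear * f.linear = 1 := by
    ext v
    simp only [Module.End.mul_apply, Module.End.one_apply]
    rw [lf (f.linear v), ← hfv, h1]
    abel
  have eG : g.linear * g.linear = 1 := by
    ext v
    simp only [Module.End.mul_apply, Module.End.one_apply]
    rw [lg (g.linear v), ← hgv, h2]
    abel
  refine Cov8.of_translate (-c) ?_
  rw [himg]
  refine cov_two hdim (F := f.linear) (G := g.linear) ?_ ?_ ?_ eF eG ?_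
    (det_of_inv _ eF df) (det_of_inv _ eG dg) ?_ ?_ ?_ ?_ ?_
  · have := hK.translate (-c)
    rwa [show (fun z => -c + z) '' K = {v | c + v ∈ K} from himg] at this
  · rw [← himg]
    exact hc.image (by fun_prop)
  · rw [← himg]
    have h5 : interior ((fun x => -c + x) '' K) = (fun x => -c + x) '' interior K :=
      ((Homeomorph.addLeft (-c)).image_interior K).symm
    rw [h5]
    exact hint.image _
  · ext v
    simp only [Module.End.mul_apply]
    rw [lf (g.linear v), ← hgv, hcomm, hfv, hgv]
    abel
  · intro h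
    obtain ⟨x, hx⟩ := nf
    apply hx
    have : x = c + (x - c) := by abel
    rw [this, hfv, h]
    rfl
  · intro h
    obtain ⟨x, hx⟩ := ng
    apply hx
    have : x = c + (x - c) := by abel
    rw [this, hgv, h]
    rfl
  · intro h
    obtain ⟨x, hx⟩ := nfg
    apply hx
    have : x = c + (x - c) := by abel
    rw [this, hgv, hfv, h]
  · intro v hv
    change c + f.linear v ∈ K
    rw [← hfv]
    exact hfK _ hv
  · intro v hv
    change c + g.linear v ∈ K
    rw [← hgv]
    exact hgK _ hv

end Pool.Agent.H768.D2
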